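import Mathlib

set_option autoImplicit false

/-!
# Isomorphisms of the Lie algebras of skew-symmetric matrices
-/

open Matrix

noncomputable section

namespace Pool.Agent.Run7.h2.OR

/-- Square matrices. -/
abbrev Mt (n : ℕ) : Type := Matrix (Fin n) (Fin n) ℂ

/-- The skew-symmetric matrices. -/
def Sk (n : ℕ) : Submodule ℂ (Mt n) where
  carrier := {M | Mᵀ = -M}
  zero_mem' := by
    change (0 : Mt n)ᵀ = -0
    rw [transpose_zero, neg_zero]
  add_mem' := fun {a b} ha hb => by
    change (a + b)ᵀ = -(a + b)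
    have ha' : aᵀ = -a := ha
    have hb' : bᵀ = -b := hb
    rw [transpose_add, ha', hb']
    abel
  smul_mem' := fun c a ha => by
    change (c • a)ᵀ = -(c • a)
    have ha' : aᵀ = -a := ha
    rw [transpose_smul, ha', smul_neg]

variable {n : ℕ}

theorem mem_Sk {M : Mt n} : M ∈ Sk n ↔ Mᵀ = -M := Iff.rfl

theorem Sk_apply (S : Sk n) (i j : Fin n) : (S : Mt n) j i = -(S : Mt n) i j :=
  congrFun (congrFun S.2 i) j

/-- The bracket. -/
def br (x y : Sk n) : Sk n := ⟨x * y - y * x, by
  rw [mem_Sk, transpose_sub, transpose_mul, transpose_mul, mem_Sk.1 x.2, mem_Sk.1 y.2, neg_mul_neg,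
    neg_mul_neg]
  abel⟩

theorem br_coe (x y : Sk n) : ((br x y : Sk n) : Mt n) = x * y - y * x := rfl

/-- The bracket as a linear map. -/
def adS (x : Sk n) : Sk n →ₗ[ℂ] Sk n where
  toFun y := br x y
  map_add' y z := Subtype.ext (by
    rw [br_coe, Submodule.coe_add, Submodule.coe_add, br_coe, br_coe, mul_add, add_mul]
    abel)
  map_smul' c y := Subtype.ext (by
    rw [br_coe, Submodule.coe_smul, RingHom.id_apply, Submodule.coe_smul, br_coe, mul_smul_comm,
      smul_mul_assoc, smul_sub])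

/-- The projection to the skew-symmetric matrices. -/
def prS (n : ℕ) : Mt n →ₗ[ℂ] Sk n where
  toFun M := ⟨(2 : ℂ)⁻¹ • (M - Mᵀ), by
    rw [mem_Sk, transpose_smul, transpose_sub, transpose_transpose, ← smul_neg, neg_sub]⟩
  map_add' x y := Subtype.ext (by
    change (2 : ℂ)⁻¹ • (x + y - (x + y)ᵀ) = (2 : ℂ)⁻¹ • (x - xᵀ) + (2 : ℂ)⁻¹ • (y - yᵀ)
    rw [transpose_add, ← smul_add]
    congr 1
    abel)
  map_smul' c x := Subtype.ext (by
    change (2 : ℂ)⁻¹ • (c • x - (c • x)ᵀ) = c • ((2 : ℂ)⁻¹ • (x - xᵀ))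
    rw [transpose_smul, ← smul_sub, smul_comm])

theorem prS_coe (M : Mt n) : ((prS n M : Sk n) : Mt n) = (2 : ℂ)⁻¹ • (M - Mᵀ) := rfl

theorem prS_self (x : Sk n) : prS n x = x := by
  refine Subtype.ext ?_
  rw [prS_coe, mem_Sk.1 x.2, sub_neg_eq_add, ← two_smul ℂ, smul_smul]
  norm_num

/-- The trace of an endomorphism of the space of matrices. -/
theorem tr_Mt (G : Mt n →ₗ[ℂ] Mt n) :
    LinearMap.trace ℂ (Mt n) G = ∑ i, ∑ j, G (Matrix.single i j 1) i j := by
  rw [LinearMap.trace_eq_matrix_trace ℂ (Matrix.stdBasis ℂ (Fin n) (Fin n)), Matrix.trace,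
    Fintype.sum_prod_type]
  refine Finset.sum_congr rfl fun i _ => Finset.sum_congr rfl fun j _ => ?_
  rw [Matrix.diag_apply, LinearMap.toMatrix_apply, Matrix.stdBasis_eq_single]
  rfl

/-- The trace on the skew-symmetric matrices. -/
theorem tr_Sk (F : Mt n →ₗ[ℂ] Mt n) (f : Sk n →ₗ[ℂ] Sk n) (h : ∀ x : Sk n, (f x : Mt n) = F x) :
    LinearMap.trace ℂ (Sk n) f =
      (2 : ℂ)⁻¹ * ∑ i, ∑ j, (F (Matrix.single i j 1) i j - F (Matrix.single j i 1) i j) := by
  have h1 : f = (prS n).comp (F.comp (Sk n).subtype) := by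
    refine LinearMap.ext fun x => ?_
    rw [LinearMap.comp_apply, LinearMap.comp_apply, Submodule.subtype_apply, ← h, prS_self]
  rw [h1, LinearMap.trace_comp_comm', tr_Mt, Finset.mul_sum]
  refine Finset.sum_congr rfl fun i _ => ?_
  rw [Finset.mul_sum]
  refine Finset.sum_congr rfl fun j _ => ?_
  rw [LinearMap.comp_apply, LinearMap.comp_apply, Submodule.subtype_apply, prS_coe, map_smul,
    map_sub, transpose_single]
  rfl

theorem single_i (i j a b : Fin n) :
    (Matrix.single i j (1 : ℂ) : Mt n) a b = if i = a ∧ j = b then 1 else 0 := rfl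

theorem mul_single' (M : Mt n) (i j a b : Fin n) :
    (M * (Matrix.single i j (1 : ℂ) : Mt n)) a b = if j = b then M a i else 0 := by
  rw [Matrix.mul_apply, Finset.sum_eq_single i]
  · rw [single_i]
    by_cases h : j = b
    · rw [if_pos ⟨rfl, h⟩, if_pos h, mul_one]
    · rw [if_neg (fun h' => h h'.2), if_neg h, mul_zero]
  · intro x _ hx
    rw [single_i, if_neg (fun h' => hx h'.1.symm), mul_zero]
  · intro h
    exact absurd (Finset.mem_univ _) h

theorem single_mul' (M : Mt n) (i j a b : Fin n) :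
    ((Matrix.single i j (1 : ℂ) : Mt n) * M) a b = if i = a then M j b else 0 := by
  rw [Matrix.mul_apply, Finset.sum_eq_single j]
  · rw [single_i]
    by_cases h : i = a
    · rw [if_pos ⟨h, rfl⟩, if_pos h, one_mul]
    · rw [if_neg (fun h' => h h'.1), if_neg h, zero_mul]
  · intro x _ hx
    rw [single_i, if_neg (fun h' => hx h'.2.symm), zero_mul]
  · intro h
    exact absurd (Finset.mem_univ _) h

theorem mul_single_mul (M N : Mt n) (i j a b : Fin n) :
    (M * (Matrix.single i j (1 : ℂ) : Mt n) * N) a b = M a i * N j b := by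
  rw [mul_assoc, Matrix.mul_apply, Finset.sum_eq_single i]
  · rw [single_mul', if_pos rfl]
  · intro x _ hx
    rw [single_mul', if_neg (Ne.symm hx), mul_zero]
  · intro h
    exact absurd (Finset.mem_univ _) h

/-- The dimension. -/
theorem dim_Sk (n : ℕ) : (2 : ℂ) * Module.finrank ℂ (Sk n) = n * n - n := by
  have h1 := tr_Sk (n := n) LinearMap.id LinearMap.id fun x => rfl
  have h2 : LinearMap.trace ℂ (Sk n) LinearMap.id = Module.finrank ℂ (Sk n) :=
    LinearMap.trace_id ℂ (Sk n)
  rw [h2] at h1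
  rw [h1, ← mul_assoc, mul_inv_cancel₀ two_ne_zero, one_mul]
  have h3 : ∀ i j : Fin n, ((LinearMap.id : Mt n →ₗ[ℂ] Mt n) (Matrix.single i j 1) i j -
      (LinearMap.id : Mt n →ₗ[ℂ] Mt n) (Matrix.single j i 1) i j) = 1 - if j = i then 1 else 0 := by
    intro i j
    rw [LinearMap.id_apply, LinearMap.id_apply, single_i, single_i, if_pos ⟨rfl, rfl⟩]
    congr 1
    by_cases h : j = i
    · rw [if_pos h, if_pos ⟨h, h.symm⟩]
    · rw [if_neg h, if_neg (fun h' => h h'.1)]
  simp only [h3, Finset.sum_sub_distrib, Finset.sum_const, Finset.card_univ, Fintype.card_fin,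
    Finset.sum_ite_eq', Finset.mem_univ, if_true, nsmul_eq_mul, mul_one]

theorem trace_Sk (S : Sk n) : (S : Mt n).trace = 0 := by
  have h1 := congrArg Matrix.trace (mem_Sk.1 S.2)
  rw [Matrix.trace_transpose, Matrix.trace_neg] at h1
  have h2 : (2 : ℂ) * (S : Mt n).trace = 0 := by linear_combination h1
  exact (mul_eq_zero.1 h2).resolve_left two_ne_zero

/-- The Killing form. -/
theorem kil_Sk (S : Sk n) : LinearMap.trace ℂ (Sk n) (adS S ∘ₗ adS S) =
    (n - 2) * ((S : Mt n) * S).trace := by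
  obtain ⟨F, hF⟩ : ∃ F : Mt n →ₗ[ℂ] Mt n, ∀ M, F M =
      (S : Mt n) * S * M - (2 : ℂ) • ((S : Mt n) * M * S) + M * ((S : Mt n) * S) := by
    refine ⟨LinearMap.mulLeft ℂ ((S : Mt n) * S) - (2 : ℂ) • (LinearMap.mulRight ℂ (S : Mt n) ∘ₗ
      LinearMap.mulLeft ℂ (S : Mt n)) + LinearMap.mulRight ℂ ((S : Mt n) * S), fun M => ?_⟩
    rfl
  rw [tr_Sk F]
  swap
  · intro x
    rw [hF]
    change (S : Mt n) * (S * x - x * S) - (S * x - x * S) * S = _
    rw [two_smul]
    noncomm_ring
  have h1 : ∀ i j : Fin n, F (Matrix.single i j 1) i j = ((S : Mt n) * S) i i -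
      2 * ((S : Mt n) i i * (S : Mt n) j j) + ((S : Mt n) * S) j j := by
    intro i j
    rw [hF, Matrix.add_apply, Matrix.sub_apply, Matrix.smul_apply, mul_single', mul_single_mul,
      single_mul', if_pos rfl, if_pos rfl, smul_eq_mul]
  have h2 : ∀ i j : Fin n, F (Matrix.single j i 1) i j =
      (if i = j then ((S : Mt n) * S) i j else 0) + 2 * ((S : Mt n) i j * (S : Mt n) j i) +
        if j = i then ((S : Mt n) * S) i j else 0 := by
    intro i j
    rw [hF, Matrix.add_apply, Matrix.sub_apply, Matrix.smul_apply, mul_single', mul_single_mul,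
      single_mul', smul_eq_mul, Sk_apply S i j]
    ring
  have h3 : ∑ i, ∑ j, (S : Mt n) i j * (S : Mt n) j i = ((S : Mt n) * S).trace := rfl
  have h4 : ∑ i, ((S : Mt n) * S) i i = ((S : Mt n) * S).trace := rfl
  have h5 : ∑ i : Fin n, (S : Mt n) i i = 0 := trace_Sk S
  simp only [h1, h2, Finset.sum_sub_distrib, Finset.sum_add_distrib, ← Finset.mul_sum, h3, h5,
    Finset.sum_ite_eq, Finset.sum_ite_eq', Finset.mem_univ, if_true, h4, Finset.sum_const,
    Finset.card_univ, Fintype.card_fin, nsmul_eq_mul, mul_zero, Finset.sum_const_zero]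
  ring

/-- Isomorphisms preserve the size and the trace form. -/
theorem iso_Sk {n' : ℕ} (hn : 3 ≤ n) (hn' : 3 ≤ n') (θ : Sk n ≃ₗ[ℂ] Sk n')
    (hθ : ∀ x y, θ (br x y) = br (θ x) (θ y)) :
    n = n' ∧ ∀ x, ((θ x : Mt n') * (θ x : Mt n')).trace = ((x : Mt n) * x).trace := by
  have h1 : n = n' := by
    have h2 := dim_Sk n
    have h3 := dim_Sk n'
    rw [θ.finrank_eq] at h2
    rw [h2] at h3
    have h4 : ((n : ℤ) - n') * (n + n' - 1) = 0 := by
      have h5 : (((n : ℤ) * n - n : ℤ) : ℂ) = (((n' : ℤ) * n' - n' : ℤ) : ℂ) := by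
        push_cast
        exact h3
      have h6 := Int.cast_injective h5
      linear_combination h6
    rcases mul_eq_zero.1 h4 with h5 | h5
    · omega
    · omega
  refine ⟨h1, fun x => ?_⟩
  subst h1
  have h2 : adS (θ x) ∘ₗ adS (θ x) = θ.conj (adS x ∘ₗ adS x) := by
    refine LinearMap.ext fun y => ?_
    rw [LinearEquiv.conj_apply_apply, LinearMap.comp_apply, LinearMap.comp_apply]
    change br (θ x) (br (θ x) y) = θ (br x (br x (θ.symm y)))
    rw [hθ, hθ, LinearEquiv.apply_symm_apply]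
  have h3 := kil_Sk (θ x)
  rw [h2, LinearMap.trace_conj', kil_Sk] at h3
  have h4 : (n : ℂ) - 2 ≠ 0 := by
    intro h
    have h5 : (n : ℂ) = (2 : ℕ) := by linear_combination h
    have h6 := Nat.cast_injective h5
    omega
  exact (mul_left_cancel₀ h4 h3).symm

/-- The index identity. -/
theorem idx (S : Sk n) (had : ∀ M : Sk n, (br S (br S (br S M)) : Mt n) = -(4 : ℂ) • (br S M : Mt n))
    {T : Mt n} (hT : T = S * S * S + (4 : ℂ) • (S : Mt n)) (i j p q : Fin n) :
    ((if q = j then T i p else 0) - (if p = j then T i q else 0)) -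
      ((if p = i then T q j else 0) - (if q = i then T p j else 0)) -
      3 * (((S : Mt n) * S) i p * (S : Mt n) q j - ((S : Mt n) * S) i q * (S : Mt n) p j) +
      3 * ((S : Mt n) i p * ((S : Mt n) * S) q j - (S : Mt n) i q * ((S : Mt n) * S) p j) = 0 := by
  obtain ⟨M, hM⟩ : ∃ M : Sk n, (M : Mt n) = Matrix.single p q 1 - Matrix.single q p 1 :=
    ⟨⟨_, by rw [mem_Sk, transpose_sub, transpose_single, transpose_single, neg_sub]⟩, rfl⟩
  have h1 := had M
  have h2 : (T * (M : Mt n) - (M : Mt n) * T) - (3 : ℂ) • ((S : Mt n) * S * M * S) +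
      (3 : ℂ) • ((S : Mt n) * M * (S * S)) = 0 := by
    have h3 : (br S (br S (br S M)) : Mt n) + (4 : ℂ) • (br S M : Mt n) = 0 := by
      rw [h1, neg_smul, neg_add_cancel]
    rw [← h3, hT]
    simp only [br_coe]
    have e4 : ∀ X : Mt n, (4 : ℂ) • X = X + X + X + X := fun X => by module
    have e3 : ∀ X : Mt n, (3 : ℂ) • X = X + X + X := fun X => by module
    simp only [e4, e3]
    noncomm_ring
  have h3 := congrFun (congrFun h2 i) j
  rw [hM] at h3
  simp only [mul_sub, sub_mul, Matrix.sub_apply, Matrix.add_apply, Matrix.smul_apply, mul_single',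
    single_mul', mul_single_mul, smul_eq_mul, Matrix.zero_apply] at h3
  linear_combination h3

/-- The elements which define a grading of length three, with the trace form `-8`. -/
theorem grad (h8 : n ≠ 8) (S : Sk n)
    (had : ∀ M : Sk n, (br S (br S (br S M)) : Mt n) = -(4 : ℂ) • (br S M : Mt n))
    (htr : ((S : Mt n) * S).trace = -8) :
    (S : Mt n) * S * S = -(4 : ℂ) • (S : Mt n) ∧ ∀ p q j, ((S : Mt n) * S) p p * (S : Mt n) q j =
      ((S : Mt n) * S) p q * (S : Mt n) p j - (S : Mt n) p q * ((S : Mt n) * S) p j := by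
  obtain ⟨T, hT⟩ : ∃ T : Mt n, T = S * S * S + (4 : ℂ) • (S : Mt n) := ⟨_, rfl⟩
  have hid := idx S had hT
  have hS2 : ∀ i j, ((S : Mt n) * S) j i = ((S : Mt n) * S) i j := by
    intro i j
    rw [Matrix.mul_apply, Matrix.mul_apply]
    refine Finset.sum_congr rfl fun k _ => ?_
    rw [Sk_apply S k j, Sk_apply S i k]
    ring
  have hTs : ∀ i j, T j i = -T i j := by
    have h1 : Tᵀ = -T := by
      rw [hT, transpose_add, transpose_mul, transpose_mul, transpose_smul, mem_Sk.1 S.2, smul_neg,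
        neg_mul_neg, neg_mul, mul_assoc]
      abel
    intro i j
    exact congrFun (congrFun h1 i) j
  have htT : T.trace = 0 := by
    have h1 : T.trace = -T.trace := by
      rw [Matrix.trace, ← Finset.sum_neg_distrib]
      exact Finset.sum_congr rfl fun i _ => hTs i i
    have h2 : (2 : ℂ) * T.trace = 0 := by linear_combination h1
    exact (mul_eq_zero.1 h2).resolve_left two_ne_zero
  have hT0 : T = 0 := by
    ext i p
    have h1 : ∑ q, (((if q = q then T i p else 0) - (if p = q then T i q else 0)) -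
        ((if p = i then T q q else 0) - (if q = i then T p q else 0)) -
        3 * (((S : Mt n) * S) i p * (S : Mt n) q q - ((S : Mt n) * S) i q * (S : Mt n) p q) +
        3 * ((S : Mt n) i p * ((S : Mt n) * S) q q - (S : Mt n) i q * ((S : Mt n) * S) p q)) = 0 :=
      Finset.sum_eq_zero fun q _ => hid i q p q
    have e1 : ∑ q, (S : Mt n) q q = 0 := trace_Sk S
    have e2 : ∑ q, ((S : Mt n) * S) q q = -8 := htr
    have e3 : ∑ q, ((S : Mt n) * S) i q * (S : Mt n) p q = -((S : Mt n) * S * S) i p := by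
      rw [Matrix.mul_apply, ← Finset.sum_neg_distrib]
      refine Finset.sum_congr rfl fun q _ => ?_
      rw [Sk_apply S q p]
      ring
    have e4 : ∑ q, (S : Mt n) i q * ((S : Mt n) * S) p q = ((S : Mt n) * S * S) i p := by
      rw [mul_assoc, Matrix.mul_apply]
      exact Finset.sum_congr rfl fun q _ => by rw [hS2 q p]
    have e5 : ∑ q : Fin n, (if p = i then T q q else 0) = 0 := by
      by_cases h : p = i
      · simp only [if_pos h]
        exact htT
      · simp only [if_neg h, Finset.sum_const_zero]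
    have e6 : T i p = ((S : Mt n) * S * S) i p + 4 * (S : Mt n) i p := by
      rw [hT]
      rfl
    simp only [Finset.sum_add_distrib, Finset.sum_sub_distrib, ← Finset.mul_sum, e1, e2, e3, e4, e5,
      if_true, Finset.sum_const, Finset.card_univ, Fintype.card_fin, nsmul_eq_mul,
      Finset.sum_ite_eq, Finset.sum_ite_eq', Finset.mem_univ] at h1
    rw [hTs i p] at h1
    have h2 : ((n : ℂ) - 8) * T i p = 0 := by
      linear_combination h1 + (-6 : ℂ) * e6
    rw [Matrix.zero_apply]
    refine (mul_eq_zero.1 h2).resolve_left fun h => h8 ?_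
    have h5 : (n : ℂ) = (8 : ℕ) := by
      push_cast
      linear_combination h
    exact Nat.cast_injective h5
  constructor
  · rw [hT0] at hT
    rw [neg_smul]
    exact eq_neg_of_add_eq_zero_left hT.symm
  · intro p q j
    have h1 := hid p j p q
    rw [hT0] at h1
    simp only [Matrix.zero_apply, ite_self, sub_zero, zero_sub, neg_zero] at h1
    have h2 : (S : Mt n) p p = 0 := by
      have h3 := Sk_apply S p p
      have h4 : (2 : ℂ) * (S : Mt n) p p = 0 := by linear_combination h3
      exact (mul_eq_zero.1 h4).resolve_left two_ne_zero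
    rw [h2] at h1
    linear_combination (-(1 / 3) : ℂ) * h1

end Pool.Agent.Run7.h2.OR
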