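import Pool.Agent.Run7.h2.OR.O1
import Pool.Agent.Y102.SP.Cl

set_option autoImplicit false

/-!
# Isomorphisms of orthogonal Lie algebras and spin representations
-/

open Module Pool.Agent.Y102.SP

noncomputable section

namespace Pool.Agent.Run7.h2.OR

section one

variable {U : Type} [AddCommGroup U] [Module ℂ U] {n : ℕ} {E : Fin n → Module.End ℂ U}

/-- The element of the Clifford algebra given by a matrix. -/
def sp (E : Fin n → Module.End ℂ U) : Mt n →ₗ[ℂ] Module.End ℂ U where
  toFun S := (4 : ℂ)⁻¹ • ∑ m, ∑ i, S m i • (E m * E i)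
  map_add' S T := by
    simp only [Matrix.add_apply, add_smul, Finset.sum_add_distrib, smul_add]
  map_smul' c S := by
    simp only [Matrix.smul_apply, smul_eq_mul, mul_smul, ← Finset.smul_sum, RingHom.id_apply]
    rw [smul_comm]

theorem sp_apply (S : Mt n) : sp E S = (4 : ℂ)⁻¹ • ∑ m, ∑ i, S m i • (E m * E i) := rfl

/-- Vectors. -/
def ve (E : Fin n → Module.End ℂ U) (a : Fin n → ℂ) : Module.End ℂ U := ∑ i, a i • E i

theorem ve_mul (a b : Fin n → ℂ) : ve E a * ve E b = ∑ i, ∑ j, (a i * b j) • (E i * E j) := by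
  unfold ve
  rw [Finset.sum_mul_sum]
  refine Finset.sum_congr rfl fun i _ => Finset.sum_congr rfl fun j _ => ?_
  rw [smul_mul_smul_comm]

theorem ve_anti (hE : CE E) (a b : Fin n → ℂ) :
    ve E a * ve E b + ve E b * ve E a = (2 * ∑ i, a i * b i) • (1 : Module.End ℂ U) := by
  have h1 : ve E b * ve E a = ∑ i, ∑ j, (a i * b j) • (E j * E i) := by
    rw [ve_mul, Finset.sum_comm]
    refine Finset.sum_congr rfl fun i _ => Finset.sum_congr rfl fun j _ => ?_
    rw [mul_comm]
  rw [ve_mul, h1, ← Finset.sum_add_distrib, Finset.mul_sum, Finset.sum_smul]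
  refine Finset.sum_congr rfl fun i _ => ?_
  rw [← Finset.sum_add_distrib, Finset.sum_eq_single i]
  · rw [hE.sq, ← two_smul ℂ, smul_smul]
  · intro j _ hj
    rw [hE.anti i j (Ne.symm hj), smul_neg, neg_add_cancel]
  · intro h
    exact absurd (Finset.mem_univ _) h

theorem ve_sq (hE : CE E) (a : Fin n → ℂ) :
    ve E a * ve E a = (∑ i, a i * a i) • (1 : Module.End ℂ U) := by
  have h := ve_anti hE a a
  rw [← two_smul ℂ, mul_smul] at h
  exact smul_right_injective _ (two_ne_zero) h

theorem sp_act (hE : CE E) (S : Sk n) (k : Fin n) :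
    sp E S * E k - E k * sp E S = ∑ m, (S : Mt n) m k • E m := by
  have h1 : ∀ m i : Fin n, (E m * E i) * E k - E k * (E m * E i) =
      (if k = i then (2 : ℂ) • E m else 0) - (if k = m then (2 : ℂ) • E i else 0) := by
    intro m i
    by_cases h : m = i
    · subst h
      rw [hE.sq, one_mul, mul_one, sub_self, sub_self]
    · exact Cl_br hE h k
  have h2 : sp E S * E k - E k * sp E S = (4 : ℂ)⁻¹ • ∑ m, ∑ i, (S : Mt n) m i •
      ((if k = i then (2 : ℂ) • E m else 0) - (if k = m then (2 : ℂ) • E i else 0)) := by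
    rw [sp_apply, smul_mul_assoc, mul_smul_comm, ← smul_sub, Finset.sum_mul, Finset.mul_sum,
      ← Finset.sum_sub_distrib]
    congr 1
    refine Finset.sum_congr rfl fun m _ => ?_
    rw [Finset.sum_mul, Finset.mul_sum, ← Finset.sum_sub_distrib]
    refine Finset.sum_congr rfl fun i _ => ?_
    rw [smul_mul_assoc, mul_smul_comm, ← smul_sub, h1]
  rw [h2]
  have h3 : ∑ m, ∑ i, (S : Mt n) m i •
      ((if k = i then (2 : ℂ) • E m else 0) - (if k = m then (2 : ℂ) • E i else 0)) =
      ∑ m, (4 : ℂ) • ((S : Mt n) m k • E m) := by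
    simp only [smul_sub, Finset.sum_sub_distrib, smul_ite, smul_zero, Finset.sum_ite_eq,
      Finset.mem_univ, if_true]
    have h4 : ∑ m, ∑ i, (if k = m then (S : Mt n) m i • (2 : ℂ) • E i else 0) =
        ∑ i, (S : Mt n) k i • (2 : ℂ) • E i := by
      rw [Finset.sum_comm]
      simp only [Finset.sum_ite_eq, Finset.mem_univ, if_true]
    rw [h4, ← Finset.sum_sub_distrib]
    refine Finset.sum_congr rfl fun i _ => ?_
    rw [Sk_apply S i k]
    module
  rw [h3, ← Finset.smul_sum, smul_smul, inv_mul_cancel₀ (by norm_num), one_smul]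

theorem sp_mem (hE : CE E) (S : Sk n) : sp E S ∈ soE E := by
  have h1 : ∀ m i : Fin n, E m * E i - (if m = i then 1 else 0) ∈ soE E := by
    intro m i
    by_cases h : m = i
    · subst h
      rw [hE.sq, if_pos rfl, sub_self]
      exact Submodule.zero_mem _
    · rw [if_neg h, sub_zero]
      exact Cl_mem_so h
  have h2 : ∑ m, ∑ i, (S : Mt n) m i • (E m * E i) =
      ∑ m, ∑ i, (S : Mt n) m i • (E m * E i - (if m = i then 1 else 0)) := by
    refine Finset.sum_congr rfl fun m _ => Finset.sum_congr rfl fun i _ => ?_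
    by_cases h : m = i
    · subst h
      have h3 : (S : Mt n) m m = 0 := by
        have h4 := Sk_apply S m m
        have h5 : (2 : ℂ) * (S : Mt n) m m = 0 := by linear_combination h4
        exact (mul_eq_zero.1 h5).resolve_left two_ne_zero
      rw [h3, zero_smul, zero_smul]
    · rw [if_neg h, sub_zero]
  rw [sp_apply, h2]
  exact Submodule.smul_mem _ _ (Submodule.sum_mem _ fun m _ => Submodule.sum_mem _ fun i _ =>
    Submodule.smul_mem _ _ (h1 m i))

variable [FiniteDimensional ℂ U] [Nontrivial U]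

theorem soE_ext (hE : CE E) {x y : Module.End ℂ U} (hx : x ∈ soE E) (hy : y ∈ soE E)
    (h : ∀ k, x * E k - E k * x = y * E k - E k * y) : x = y := by
  have h1 := soE_rec hE hx
  rw [Finset.sum_congr rfl fun i _ => by rw [h i], ← soE_rec hE hy] at h1
  exact smul_right_injective _ (by norm_num : (4 : ℂ) ≠ 0) h1

theorem soE_br (hE : CE E) {x y : Module.End ℂ U} (hx : x ∈ soE E) (hy : y ∈ soE E) :
    x * y - y * x ∈ soE E := by
  induction hy using Submodule.span_induction with
  | mem y hy =>
    obtain ⟨i, j, hij, rfl⟩ := hy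
    have h1 : x * (E i * E j) - E i * E j * x =
        (2 : ℂ)⁻¹ • (((x * E i - E i * x) * E j - E j * (x * E i - E i * x)) +
          (E i * (x * E j - E j * x) - (x * E j - E j * x) * E i)) := by
      have h2 : E j * E i = -(E i * E j) := hE.anti j i (Ne.symm hij)
      have h3 : (2 : ℂ) • (x * (E i * E j) - E i * E j * x) =
          ((x * E i - E i * x) * E j - E j * (x * E i - E i * x)) +
          (E i * (x * E j - E j * x) - (x * E j - E j * x) * E i) := by
        rw [two_smul]
        calc _ = (x * (E i * E j) - E i * E j * x) + (x * (E i * E j) - E i * E j * x) := rfl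
          _ = (x * (E i * E j) - E i * E j * x) + (x * (-(E j * E i)) - (-(E j * E i)) * x) := by
            rw [h2, neg_neg]
          _ = _ := by
            noncomm_ring
      rw [← h3, smul_smul, inv_mul_cancel₀ two_ne_zero, one_smul]
    rw [h1]
    have hv : ∀ k, x * E k - E k * x ∈ VE E := fun k =>
      soE_stab hE hx (Submodule.subset_span ⟨k, rfl⟩)
    exact Submodule.smul_mem _ _ (Submodule.add_mem _
      (Cl_comm_mem (hv i) (Submodule.subset_span ⟨j, rfl⟩))
      (Cl_comm_mem (Submodule.subset_span ⟨i, rfl⟩) (hv j)))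
  | zero => simp
  | add y z _ _ hy hz =>
    have h1 : x * (y + z) - (y + z) * x = (x * y - y * x) + (x * z - z * x) := by noncomm_ring
    rw [h1]
    exact Submodule.add_mem _ hy hz
  | smul c y _ hy =>
    have h1 : x * (c • y) - (c • y) * x = c • (x * y - y * x) := by
      rw [mul_smul_comm, smul_mul_assoc, smul_sub]
    rw [h1]
    exact Submodule.smul_mem _ _ hy

theorem sp_br (hE : CE E) (S T : Sk n) :
    sp E (br S T : Sk n) = sp E S * sp E T - sp E T * sp E S := by
  refine soE_ext hE (sp_mem hE _) (soE_br hE (sp_mem hE S) (sp_mem hE T)) fun k => ?_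
  rw [sp_act hE]
  have h1 : (sp E S * sp E T - sp E T * sp E S) * E k - E k * (sp E S * sp E T - sp E T * sp E S) =
      (sp E S * (sp E T * E k - E k * sp E T) - (sp E T * E k - E k * sp E T) * sp E S) -
      (sp E T * (sp E S * E k - E k * sp E S) - (sp E S * E k - E k * sp E S) * sp E T) := by
    noncomm_ring
  have h2 : ∀ X Y : Sk n, sp E X * (∑ m, (Y : Mt n) m k • E m) -
      (∑ m, (Y : Mt n) m k • E m) * sp E X = ∑ l, ((X : Mt n) * Y) l k • E l := by
    intro X Y
    rw [Finset.mul_sum, Finset.sum_mul, ← Finset.sum_sub_distrib]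
    have h3 : ∀ m, sp E X * ((Y : Mt n) m k • E m) - (Y : Mt n) m k • E m * sp E X =
        ∑ l, ((X : Mt n) l m * (Y : Mt n) m k) • E l := by
      intro m
      rw [mul_smul_comm, smul_mul_assoc, ← smul_sub, sp_act hE, Finset.smul_sum]
      refine Finset.sum_congr rfl fun l _ => ?_
      rw [smul_smul, mul_comm]
    rw [Finset.sum_congr rfl fun m _ => h3 m, Finset.sum_comm]
    refine Finset.sum_congr rfl fun l _ => ?_
    rw [← Finset.sum_smul, Matrix.mul_apply]
  rw [h1, sp_act hE, sp_act hE, h2, h2, ← Finset.sum_sub_distrib]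
  refine Finset.sum_congr rfl fun m _ => ?_
  rw [← sub_smul, br_coe, Matrix.sub_apply]

theorem sp_surj (hE : CE E) {x : Module.End ℂ U} (hx : x ∈ soE E) : ∃ S : Sk n, sp E S = x := by
  induction hx using Submodule.span_induction with
  | mem x hx =>
    obtain ⟨a, b, hab, rfl⟩ := hx
    refine ⟨⟨(2 : ℂ) • (Matrix.single a b 1 - Matrix.single b a 1), ?_⟩, ?_⟩
    · rw [mem_Sk, Matrix.transpose_smul, Matrix.transpose_sub, Matrix.transpose_single,
        Matrix.transpose_single, ← smul_neg, neg_sub]
    · refine soE_ext hE (sp_mem hE _) (Cl_mem_so hab) fun k => ?_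
      rw [sp_act hE, Cl_br hE hab]
      simp only [Matrix.smul_apply, Matrix.sub_apply, single_i, smul_eq_mul]
      have h1 : ∀ m, (2 * ((if a = m ∧ b = k then (1 : ℂ) else 0) -
          if b = m ∧ a = k then 1 else 0)) • E m =
          (if a = m then (if k = b then (2 : ℂ) • E m else 0) else 0) -
          (if b = m then (if k = a then (2 : ℂ) • E m else 0) else 0) := by
        intro m
        by_cases h2 : a = m <;> by_cases h3 : b = m <;> by_cases h4 : k = b <;>
          by_cases h5 : k = a <;> simp_all [eq_comm]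
      rw [Finset.sum_congr rfl fun m _ => h1 m, Finset.sum_sub_distrib]
      simp only [Finset.sum_ite_eq, Finset.mem_univ, if_true]
  | zero => exact ⟨0, by rw [Submodule.coe_zero, map_zero]⟩
  | add x y _ _ hx hy =>
    obtain ⟨S, rfl⟩ := hx
    obtain ⟨T, rfl⟩ := hy
    exact ⟨S + T, by rw [Submodule.coe_add, map_add]⟩
  | smul c x _ hx =>
    obtain ⟨S, rfl⟩ := hx
    exact ⟨c • S, by rw [Submodule.coe_smul, map_smul]⟩

/-- The square of an element which defines a grading of length three. -/
theorem sq_of (hE : CE E) (h8 : n ≠ 8) (S : Sk n)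
    (had : ∀ M : Sk n, (br S (br S (br S M)) : Mt n) = -(4 : ℂ) • (br S M : Mt n))
    (htr : ((S : Mt n) * S).trace = -8) : sp E S * sp E S = -1 := by
  obtain ⟨h3, hd⟩ := grad h8 S had htr
  obtain ⟨p, hp⟩ : ∃ p, ((S : Mt n) * S) p p ≠ 0 := by
    by_contra hcon
    push Not at hcon
    have h1 : ((S : Mt n) * S).trace = 0 := Finset.sum_eq_zero fun i _ => hcon i
    rw [h1] at htr
    norm_num at htr
  obtain ⟨κ, hκ⟩ : ∃ κ, κ = ((S : Mt n) * S) p p := ⟨_, rfl⟩
  rw [← hκ] at hp
  have hS2 : ∀ i j, ((S : Mt n) * S) j i = ((S : Mt n) * S) i j := by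
    intro i j
    rw [Matrix.mul_apply, Matrix.mul_apply]
    refine Finset.sum_congr rfl fun k _ => ?_
    rw [Sk_apply S k j, Sk_apply S i k]
    ring
  have hpp : (S : Mt n) p p = 0 := by
    have h4 := Sk_apply S p p
    have h5 : (2 : ℂ) * (S : Mt n) p p = 0 := by linear_combination h4
    exact (mul_eq_zero.1 h5).resolve_left two_ne_zero
  let a : Fin n → ℂ := fun j => (S : Mt n) p j
  let b : Fin n → ℂ := fun j => ((S : Mt n) * S) p j
  have haa : ∑ i, a i * a i = -κ := by
    rw [hκ, Matrix.mul_apply, ← Finset.sum_neg_distrib]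
    refine Finset.sum_congr rfl fun i _ => ?_
    rw [Sk_apply S p i]
    ring
  have hab : ∑ i, a i * b i = 0 := by
    have h1 : ((S : Mt n) * S * S) p p = 0 := by
      rw [h3, Matrix.smul_apply, hpp, smul_zero]
    rw [← h1, mul_assoc, Matrix.mul_apply]
    refine Finset.sum_congr rfl fun i _ => ?_
    change (S : Mt n) p i * ((S : Mt n) * S) p i = _
    rw [hS2]
  have hbb : ∑ i, b i * b i = -4 * κ := by
    have h1 : ((S : Mt n) * S * S * S) p p = -4 * κ := by
      rw [h3, smul_mul_assoc, Matrix.smul_apply, hκ, smul_eq_mul]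
    rw [← h1, mul_assoc ((S : Mt n) * S), Matrix.mul_apply]
    refine Finset.sum_congr rfl fun i _ => ?_
    change ((S : Mt n) * S) p i * ((S : Mt n) * S) p i = _
    rw [hS2 i p]
  have e1 := ve_sq hE a
  have e2 := ve_sq hE b
  have e3 := ve_anti hE a b
  rw [haa] at e1
  rw [hbb] at e2
  rw [hab, mul_zero, zero_smul] at e3
  have e4 : (4 * κ) • sp E S = ve E b * ve E a - ve E a * ve E b := by
    rw [ve_mul, ve_mul, sp_apply, smul_smul, ← Finset.sum_sub_distrib]
    have h5 : 4 * κ * (4 : ℂ)⁻¹ = κ := by ring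
    rw [h5, Finset.smul_sum]
    refine Finset.sum_congr rfl fun q _ => ?_
    rw [Finset.smul_sum, ← Finset.sum_sub_distrib]
    refine Finset.sum_congr rfl fun j _ => ?_
    rw [smul_smul, ← sub_smul, hκ, hd p q j]
  have e5 : ve E b * ve E a = -(ve E a * ve E b) := eq_neg_of_add_eq_zero_right e3
  have e6 : (4 * κ) • sp E S = (-2 : ℂ) • (ve E a * ve E b) := by
    rw [e4, e5]
    module
  have e7 : (4 * κ * (4 * κ)) • (sp E S * sp E S) = (4 : ℂ) • (ve E a * ve E b * (ve E a * ve E b)) := by
    rw [← smul_mul_smul_comm, e6, smul_mul_smul_comm]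
    norm_num
  have e8 : ve E a * ve E b * (ve E a * ve E b) = (-(4 * κ * κ)) • (1 : Module.End ℂ U) := by
    calc ve E a * ve E b * (ve E a * ve E b) = ve E a * (ve E b * ve E a) * ve E b := by
          simp only [mul_assoc]
      _ = -(ve E a * ve E a * (ve E b * ve E b)) := by
          rw [e5]
          simp only [mul_neg, neg_mul, mul_assoc]
      _ = _ := by
          rw [e1, e2, smul_mul_smul_comm, one_mul, ← neg_smul]
          congr 1
          ring
  rw [e8, smul_smul] at e7
  have e9 : (4 * κ * (4 * κ)) • (sp E S * sp E S) = (4 * κ * (4 * κ)) • (-1 : Module.End ℂ U) := by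
    rw [e7, smul_neg, ← neg_smul]
    congr 1
    ring
  exact smul_right_injective _ (by simpa using hp : (4 * κ * (4 * κ)) ≠ 0) e9

end one

end Pool.Agent.Run7.h2.OR
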