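import Pool.Agent.Run7.h2.OR.O2
import Pool.Agent.Y102.SP.Simple

set_option autoImplicit false

/-!
# Isomorphisms of orthogonal Lie algebras and spin representations: the intertwiner
-/

open Module Pool.Agent.Y102.SP

noncomputable section

namespace Pool.Agent.Run7.h2.OR

variable {U : Type} [AddCommGroup U] [Module ℂ U] {U' : Type} [AddCommGroup U'] [Module ℂ U']

theorem exists_hom [Nontrivial U] [Nontrivial U'] : ∃ S : U →ₗ[ℂ] U', S ≠ 0 := by
  obtain ⟨u, hu⟩ := exists_ne (0 : U)
  obtain ⟨w, hw⟩ := exists_ne (0 : U')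
  obtain ⟨f, hf⟩ : ∃ f : Module.Dual ℂ U, f u ≠ 0 := by
    by_contra hcon
    push Not at hcon
    exact hu ((Module.forall_dual_apply_eq_zero_iff ℂ u).1 hcon)
  refine ⟨f.smulRight w, fun h => ?_⟩
  have h1 := LinearMap.congr_fun h u
  rw [LinearMap.smulRight_apply, LinearMap.zero_apply] at h1
  exact (smul_ne_zero hf hw) h1

/-- The intertwiner. -/
theorem inter_ex [Nontrivial U] [Nontrivial U'] {n : ℕ} {E : Fin n → Module.End ℂ U} (hE : CE E)
    (X : ∀ i, i + 1 < n → Module.End ℂ U') (hsq : ∀ i h, X i h * X i h = -1)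
    (hanti : ∀ i (h' : i + 1 < n) (h : i + 1 + 1 < n), X i h' * X (i + 1) h = -(X (i + 1) h * X i h'))
    (hcomm : ∀ i j hi hj, i + 1 < j → X i hi * X j hj = X j hj * X i hi) :
    ∀ m, m < n → ∃ S : U →ₗ[ℂ] U', S ≠ 0 ∧ ∀ i (h : i + 1 < n), i < m → ∀ u,
      X i h (S u) = S ((E ⟨i, Nat.lt_of_succ_lt h⟩ * E ⟨i + 1, h⟩) u) := by
  intro m
  induction m with
  | zero =>
    intro _
    obtain ⟨S, hS⟩ := exists_hom (U := U) (U' := U')
    exact ⟨S, hS, fun i _ h => absurd h (Nat.not_lt_zero i)⟩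
  | succ m ih =>
    intro hm
    obtain ⟨S, hS, hi⟩ := ih (Nat.lt_of_succ_lt hm)
    obtain ⟨Y, hY⟩ : ∃ Y, Y = X m hm := ⟨_, rfl⟩
    obtain ⟨e, he⟩ : ∃ e, e = E ⟨m, Nat.lt_of_succ_lt hm⟩ := ⟨_, rfl⟩
    obtain ⟨f, hf⟩ : ∃ f, f = E ⟨m + 1, hm⟩ := ⟨_, rfl⟩
    have hne : (⟨m, Nat.lt_of_succ_lt hm⟩ : Fin n) ≠ ⟨m + 1, hm⟩ := by
      intro h
      have := congrArg Fin.val h
      simp at this
    have hff : f * f = 1 := by rw [hf, hE.sq]
    have hee : e * e = 1 := by rw [he, hE.sq]
    have hef : f * e = -(e * f) := by rw [he, hf, hE.anti _ _ hne.symm]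
    have hYY : Y * Y = -1 := by rw [hY, hsq]
    have hefef : e * f * (e * f) = -1 := by
      calc e * f * (e * f) = e * (f * e) * f := by simp only [mul_assoc]
        _ = -(e * e * (f * f)) := by rw [hef]; simp only [mul_neg, neg_mul, mul_assoc]
        _ = -1 := by rw [hee, hff, one_mul]
    have hYYu : ∀ w, Y (Y w) = -w := fun w => by
      rw [← Module.End.mul_apply, hYY, LinearMap.neg_apply, Module.End.one_apply]
    -- the products of the earlier generators
    have hg : ∀ i (h : i + 1 < n), i < m → (E ⟨i, Nat.lt_of_succ_lt h⟩ * E ⟨i + 1, h⟩) * f =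
        f * (E ⟨i, Nat.lt_of_succ_lt h⟩ * E ⟨i + 1, h⟩) := by
      intro i h him
      have n1 : (⟨i, Nat.lt_of_succ_lt h⟩ : Fin n) ≠ ⟨m + 1, hm⟩ := by
        intro h'
        have := congrArg Fin.val h'
        simp at this
        omega
      have n2 : (⟨i + 1, h⟩ : Fin n) ≠ ⟨m + 1, hm⟩ := by
        intro h'
        have := congrArg Fin.val h'
        simp at this
        omega
      rw [hf]
      calc _ = E ⟨i, Nat.lt_of_succ_lt h⟩ * (E ⟨i + 1, h⟩ * E ⟨m + 1, hm⟩) := mul_assoc _ _ _
        _ = -((E ⟨i, Nat.lt_of_succ_lt h⟩ * E ⟨m + 1, hm⟩) * E ⟨i + 1, h⟩) := by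
          rw [hE.anti _ _ n2, mul_neg, mul_assoc]
        _ = _ := by
          rw [hE.anti _ _ n1, neg_mul, neg_neg, mul_assoc]
    by_cases h0 : S - Y ∘ₗ S ∘ₗ (e * f) = 0
    · have h1 : ∀ u, S u = Y (S ((e * f) u)) := by
        intro u
        have h2 := LinearMap.congr_fun h0 u
        rw [LinearMap.sub_apply, LinearMap.comp_apply, LinearMap.comp_apply, LinearMap.zero_apply,
          sub_eq_zero] at h2
        exact h2
      refine ⟨S ∘ₗ f, fun h => hS ?_, fun i h him u => ?_⟩
      · refine LinearMap.ext fun u => ?_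
        have h2 := LinearMap.congr_fun h (f u)
        rw [LinearMap.comp_apply, ← Module.End.mul_apply, hff, Module.End.one_apply] at h2
        rw [h2, LinearMap.zero_apply, LinearMap.zero_apply]
      · rw [LinearMap.comp_apply, LinearMap.comp_apply]
        rcases Nat.lt_succ_iff_lt_or_eq.1 him with h2 | h2
        · rw [hi i h h2, ← Module.End.mul_apply, ← Module.End.mul_apply, hg i h h2]
        · subst h2
          have h3 : X i h = Y := hY.symm
          have h4 : E ⟨i, Nat.lt_of_succ_lt h⟩ = e := he.symm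
          have h5 : E ⟨i + 1, h⟩ = f := hf.symm
          rw [h3, h4, h5, h1 (f u), hYYu, ← Module.End.mul_apply, ← Module.End.mul_apply]
          have h6 : e * f * f = e := by rw [mul_assoc, hff, mul_one]
          have h7 : f * (e * f) = -e := by
            rw [← mul_assoc, hef, neg_mul, mul_assoc, hff, mul_one]
          rw [h6, h7, LinearMap.neg_apply, map_neg]
    · refine ⟨_, h0, fun i h him u => ?_⟩
      simp only [LinearMap.sub_apply, LinearMap.comp_apply, map_sub]
      rcases Nat.lt_succ_iff_lt_or_eq.1 him with h2 | h2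
      · obtain ⟨gi, hgi⟩ : ∃ gi, gi = E ⟨i, Nat.lt_of_succ_lt h⟩ * E ⟨i + 1, h⟩ := ⟨_, rfl⟩
        have h3 : ∀ w, X i h (S w) = S (gi w) := by
          rw [hgi]
          exact hi i h h2
        rw [h3, ← hgi]
        congr 1
        have h4 : gi * f = f * gi := by
          rw [hgi]
          exact hg i h h2
        by_cases h5 : i + 1 = m
        · -- neighbours
          subst h5
          have h6 : X i h * Y = -(Y * X i h) := by rw [hY]; exact hanti i _ hm
          have h7 : gi * e = -(e * gi) := by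
            have n1 : (⟨i, Nat.lt_of_succ_lt h⟩ : Fin n) ≠ ⟨i + 1, h⟩ := by
              intro h'
              have := congrArg Fin.val h'
              simp at this
            rw [hgi, he, mul_assoc, hE.sq, mul_one, ← mul_assoc, hE.anti _ _ n1.symm, neg_mul,
              neg_neg, mul_assoc, hE.sq, mul_one]
          have h8 : gi * (e * f) = -(e * f * gi) := by
            rw [← mul_assoc, h7, neg_mul, mul_assoc, h4, mul_assoc]
          calc X i h (Y (S ((e * f) u))) = (X i h * Y) (S ((e * f) u)) := rfl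
            _ = -(Y (X i h (S ((e * f) u)))) := by rw [h6]; rfl
            _ = -(Y (S ((gi * (e * f)) u))) := by rw [h3]; rfl
            _ = Y (S ((e * f * gi) u)) := by
              rw [h8, LinearMap.neg_apply, map_neg, map_neg, neg_neg]
            _ = _ := rfl
        · have h5' : i + 1 < m := by omega
          have h6 : X i h * Y = Y * X i h := by rw [hY]; exact hcomm i m _ hm h5'
          have h7 : gi * e = e * gi := by
            have n1 : (⟨i, Nat.lt_of_succ_lt h⟩ : Fin n) ≠ ⟨m, Nat.lt_of_succ_lt hm⟩ := by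
              intro h'
              have := congrArg Fin.val h'
              simp at this
              omega
            have n2 : (⟨i + 1, h⟩ : Fin n) ≠ ⟨m, Nat.lt_of_succ_lt hm⟩ := by
              intro h'
              have := congrArg Fin.val h'
              simp at this
              omega
            rw [hgi, he, mul_assoc, hE.anti _ _ n2, mul_neg, ← mul_assoc, hE.anti _ _ n1, neg_mul,
              neg_neg, mul_assoc]
          have h8 : gi * (e * f) = e * f * gi := by
            rw [← mul_assoc, h7, mul_assoc, h4, mul_assoc]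
          calc X i h (Y (S ((e * f) u))) = (X i h * Y) (S ((e * f) u)) := rfl
            _ = Y (X i h (S ((e * f) u))) := by rw [h6]; rfl
            _ = Y (S ((gi * (e * f)) u)) := by rw [h3]; rfl
            _ = _ := by rw [h8]; rfl
      · subst h2
        have h3 : X i h = Y := hY.symm
        have h4 : E ⟨i, Nat.lt_of_succ_lt h⟩ = e := he.symm
        have h5 : E ⟨i + 1, h⟩ = f := hf.symm
        rw [h3, h4, h5, hYYu, ← Module.End.mul_apply (e * f) (e * f), hefef, LinearMap.neg_apply,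
          Module.End.one_apply, map_neg, map_neg]
        abel

variable {n n' : ℕ} {E : Fin n → Module.End ℂ U} {E' : Fin n' → Module.End ℂ U'}

section spin

variable [FiniteDimensional ℂ U] [Nontrivial U]

theorem sp_inj (hE : CE E) {S T : Sk n} (h : sp E S = sp E T) : S = T := by
  refine Subtype.ext (Matrix.ext fun m k => ?_)
  have h1 := sp_act hE S k
  rw [h, sp_act hE T k] at h1
  have h2 : ∑ m, ((S : Mt n) m k - (T : Mt n) m k) • E m = 0 := by
    simp only [sub_smul, Finset.sum_sub_distrib]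
    rw [h1, sub_self]
  have h3 := Fintype.linearIndependent_iff.1 (Cl_indep hE) _ h2 m
  exact sub_eq_zero.1 h3

/-- The spin representation. -/
def spE (hE : CE E) : Sk n ≃ₗ[ℂ] soE E :=
  LinearEquiv.ofBijective ((sp E ∘ₗ (Sk n).subtype).codRestrict (soE E) fun S => sp_mem hE S)
    ⟨fun S T h => sp_inj hE (congrArg Subtype.val h), fun x => by
      obtain ⟨S, hS⟩ := sp_surj hE x.2
      exact ⟨S, Subtype.ext hS⟩⟩

theorem spE_coe (hE : CE E) (S : Sk n) : ((spE hE S : soE E) : Module.End ℂ U) = sp E S := rfl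

end spin

section core

variable [FiniteDimensional ℂ U] [Nontrivial U] [FiniteDimensional ℂ U'] [Nontrivial U']

/-- Isomorphic orthogonal Lie algebras have the same rank. -/
theorem rank_eq (hn : 3 ≤ n) (hn' : 3 ≤ n') (hE : CE E) (hE' : CE E')
    (θ : soE E ≃ₗ[ℂ] soE E') (hθ : ∀ x y z : soE E,
      (z : Module.End ℂ U) = (x : Module.End ℂ U) * y - (y : Module.End ℂ U) * x →
      (θ z : Module.End ℂ U') = (θ x : Module.End ℂ U') * θ y - (θ y : Module.End ℂ U') * θ x) :
    n = n' := by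
  obtain ⟨Θ, hΘ⟩ : ∃ Θ : Sk n ≃ₗ[ℂ] Sk n', ∀ T, sp E' (Θ T : Sk n') = θ (spE hE T) := by
    refine ⟨(spE hE).trans (θ.trans (spE hE').symm), fun T => ?_⟩
    rw [← spE_coe hE', LinearEquiv.trans_apply, LinearEquiv.trans_apply,
      LinearEquiv.apply_symm_apply]
  have hΘbr : ∀ S T, Θ (br S T) = br (Θ S) (Θ T) := by
    intro S T
    refine sp_inj hE' ?_
    rw [hΘ, sp_br hE', hΘ, hΘ]
    refine hθ _ _ _ ?_
    rw [spE_coe, spE_coe, spE_coe, sp_br hE]
  exact (iso_Sk hn hn' Θ hΘbr).1

variable (hn : 3 ≤ n) (hn' : 3 ≤ n') (h8 : ¬ (n = 8 ∧ n' = 8)) (hE : CE E) (hE' : CE E')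
  (θ : soE E ≃ₗ[ℂ] soE E') (hθ : ∀ x y z : soE E,
    (z : Module.End ℂ U) = (x : Module.End ℂ U) * y - (y : Module.End ℂ U) * x →
    (θ z : Module.End ℂ U') = (θ x : Module.End ℂ U') * θ y - (θ y : Module.End ℂ U') * θ x)
include hn hn' h8 hE hE' hθ

theorem theta_sq (a b : Fin n → ℂ) (haa : ∑ i, a i * a i = 1) (hbb : ∑ i, b i * b i = 1)
    (hab : ∑ i, a i * b i = 0) (x : soE E) (hx : (x : Module.End ℂ U) = ve E a * ve E b) :
    (θ x : Module.End ℂ U') * θ x = -1 := by
  obtain ⟨S, hS⟩ : ∃ S : Sk n, ∀ i j, (S : Mt n) i j = 2 * (a i * b j - b i * a j) :=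
    ⟨⟨Matrix.of fun i j => 2 * (a i * b j - b i * a j), by
      rw [mem_Sk]
      ext i j
      rw [Matrix.transpose_apply, Matrix.neg_apply, Matrix.of_apply, Matrix.of_apply]
      ring⟩, fun i j => rfl⟩
  have e1 := ve_sq hE a
  have e2 := ve_sq hE b
  have e3 := ve_anti hE a b
  rw [haa, one_smul] at e1
  rw [hbb, one_smul] at e2
  rw [hab, mul_zero, zero_smul] at e3
  have e5 : ve E b * ve E a = -(ve E a * ve E b) := eq_neg_of_add_eq_zero_right e3
  have hSx : sp E S = x := by
    have h1 : (2 : ℂ) • sp E S = ve E a * ve E b - ve E b * ve E a := by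
      rw [ve_mul, ve_mul, sp_apply, smul_smul, ← Finset.sum_sub_distrib, Finset.smul_sum]
      refine Finset.sum_congr rfl fun i _ => ?_
      rw [Finset.smul_sum, ← Finset.sum_sub_distrib]
      refine Finset.sum_congr rfl fun j _ => ?_
      rw [smul_smul, ← sub_smul, hS]
      congr 1
      ring
    rw [e5, sub_neg_eq_add, ← two_smul ℂ, ← hx] at h1
    exact smul_right_injective _ two_ne_zero h1
  have hxx : (x : Module.End ℂ U) * x = -1 := by
    rw [hx]
    calc ve E a * ve E b * (ve E a * ve E b) = ve E a * (ve E b * ve E a) * ve E b := by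
          simp only [mul_assoc]
      _ = -(ve E a * ve E a * (ve E b * ve E b)) := by
          rw [e5]
          simp only [mul_neg, neg_mul, mul_assoc]
      _ = -1 := by rw [e1, e2, one_mul]
  have had : ∀ M : Sk n, br S (br S (br S M)) = -(4 : ℂ) • br S M := by
    intro M
    refine sp_inj hE ?_
    rw [sp_br hE, sp_br hE, Submodule.coe_smul, map_smul, sp_br hE, hSx]
    generalize (x : Module.End ℂ U) = z at hxx
    generalize sp E M = y
    have h1 : z * (z * (z * y - y * z) - (z * y - y * z) * z) -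
        (z * (z * y - y * z) - (z * y - y * z) * z) * z =
        (z * z) * (z * y) - (z * z) * (y * z) - (2 : ℂ) • ((z * z) * (y * z)) +
        (2 : ℂ) • (z * y * (z * z)) + z * y * (z * z) - (y * z) * (z * z) := by
      rw [two_smul, two_smul]
      noncomm_ring
    rw [h1, hxx]
    simp only [neg_mul, one_mul, mul_neg, mul_one, smul_neg]
    module
  have htr : ((S : Mt n) * S).trace = -8 := by
    have h1 : ((S : Mt n) * S).trace = ∑ i, ∑ j, (2 * (a i * b j - b i * a j)) *
        (2 * (a j * b i - b j * a i)) := by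
      rw [Matrix.trace]
      refine Finset.sum_congr rfl fun i _ => ?_
      rw [Matrix.diag_apply, Matrix.mul_apply]
      exact Finset.sum_congr rfl fun j _ => by rw [hS, hS]
    have h2 : ∀ i j, (2 * (a i * b j - b i * a j)) * (2 * (a j * b i - b j * a i)) =
        8 * ((a i * b i) * (a j * b j)) - 4 * ((a i * a i) * (b j * b j)) -
          4 * ((b i * b i) * (a j * a j)) := by
      intro i j
      ring
    rw [h1, Finset.sum_congr rfl fun i _ => Finset.sum_congr rfl fun j _ => h2 i j]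
    simp only [Finset.sum_sub_distrib, ← Finset.mul_sum, haa, hbb, hab, mul_one, mul_zero]
    norm_num
  obtain ⟨Θ, hΘ⟩ : ∃ Θ : Sk n ≃ₗ[ℂ] Sk n', ∀ T, sp E' (Θ T : Sk n') = θ (spE hE T) := by
    refine ⟨(spE hE).trans (θ.trans (spE hE').symm), fun T => ?_⟩
    rw [← spE_coe hE', LinearEquiv.trans_apply, LinearEquiv.trans_apply,
      LinearEquiv.apply_symm_apply]
  have hΘbr : ∀ S T, Θ (br S T) = br (Θ S) (Θ T) := by
    intro S T
    refine sp_inj hE' ?_
    rw [hΘ, sp_br hE', hΘ, hΘ]
    refine hθ _ _ _ ?_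
    rw [spE_coe, spE_coe, spE_coe, sp_br hE]
  obtain ⟨hnn, htrΘ⟩ := iso_Sk hn hn' Θ hΘbr
  have key := sq_of hE' (fun h => h8 ⟨hnn.trans h, h⟩) (Θ S) ?_ (by rw [htrΘ, htr])
  · rw [hΘ] at key
    have h1 : spE hE S = x := Subtype.ext (by rw [spE_coe, hSx])
    rw [h1] at key
    exact key
  · intro M'
    obtain ⟨M, rfl⟩ := Θ.surjective M'
    rw [← hΘbr, ← hΘbr, ← hΘbr, had, map_smul, Submodule.coe_smul]

/-- **The intertwiner.** -/
theorem core_inter : ∃ S : U →ₗ[ℂ] U', S ≠ 0 ∧ ∀ (x : soE E) (u : U),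
    (θ x : Module.End ℂ U') (S u) = S ((x : Module.End ℂ U) u) := by
  have hveS : ∀ i : Fin n, ve E (Pi.single i 1) = E i := by
    intro i
    unfold ve
    rw [Finset.sum_eq_single i]
    · rw [Pi.single_eq_same, one_smul]
    · intro j _ hj
      rw [Pi.single_eq_of_ne hj, zero_smul]
    · intro h
      exact absurd (Finset.mem_univ _) h
  have hsum : ∀ (i : Fin n) (f : Fin n → ℂ), ∑ j, (Pi.single i 1 : Fin n → ℂ) j * f j = f i := by
    intro i f
    rw [Finset.sum_eq_single i]
    · rw [Pi.single_eq_same, one_mul]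
    · intro j _ hj
      rw [Pi.single_eq_of_ne hj, zero_mul]
    · intro h
      exact absurd (Finset.mem_univ _) h
  have hne : ∀ i (h : i + 1 < n), (⟨i, Nat.lt_of_succ_lt h⟩ : Fin n) ≠ ⟨i + 1, h⟩ := by
    intro i h h'
    have := congrArg Fin.val h'
    simp at this
  let G : ∀ i, i + 1 < n → soE E := fun i h =>
    ⟨E ⟨i, Nat.lt_of_succ_lt h⟩ * E ⟨i + 1, h⟩, Cl_mem_so (hne i h)⟩
  have hsq : ∀ i h, (θ (G i h) : Module.End ℂ U') * θ (G i h) = -1 := by
    intro i h
    refine theta_sq hn hn' h8 hE hE' θ hθ (Pi.single ⟨i, Nat.lt_of_succ_lt h⟩ 1)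
      (Pi.single ⟨i + 1, h⟩ 1) ?_ ?_ ?_ _ ?_
    · rw [hsum, Pi.single_eq_same]
    · rw [hsum, Pi.single_eq_same]
    · rw [hsum, Pi.single_eq_of_ne (hne i h)]
    · rw [hveS, hveS]
  obtain ⟨S, hS, hSi⟩ := inter_ex (U' := U') hE (fun i h => (θ (G i h) : Module.End ℂ U')) hsq
    (by
      intro i h' h
      obtain ⟨t, ht⟩ : ∃ t : ℂ, t * t = 1 / 2 := by
        obtain ⟨t, ht⟩ := IsAlgClosed.exists_pow_nat_eq (1 / 2 : ℂ) (n := 2) (by norm_num)
        exact ⟨t, by rw [← ht, sq]⟩
      have n1 := hne i h'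
      have n2 := hne (i + 1) h
      have n3 : (⟨i, Nat.lt_of_succ_lt h'⟩ : Fin n) ≠ ⟨i + 1 + 1, h⟩ := by
        intro h'
        have := congrArg Fin.val h'
        simp at this
        omega
      have h1 := theta_sq hn hn' h8 hE hE' θ hθ (Pi.single ⟨i + 1, h'⟩ 1)
        (t • (Pi.single ⟨i + 1 + 1, h⟩ 1 - Pi.single ⟨i, Nat.lt_of_succ_lt h'⟩ 1)) ?_ ?_ ?_
        (t • (G (i + 1) h + G i h')) ?_
      · rw [map_smul, map_add, Submodule.coe_smul, Submodule.coe_add, smul_mul_smul_comm, ht,
          add_mul, mul_add, mul_add, hsq, hsq] at h1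
        have h2 : (θ (G i h') : Module.End ℂ U') * θ (G (i + 1) h) +
            (θ (G (i + 1) h) : Module.End ℂ U') * θ (G i h') =
            (2 : ℂ) • ((1 / 2 : ℂ) • (-1 + (θ (G (i + 1) h) : Module.End ℂ U') * θ (G i h') +
              ((θ (G i h') : Module.End ℂ U') * θ (G (i + 1) h) + -1)) + 1) := by
          module
        rw [h1, neg_add_cancel, smul_zero] at h2
        exact eq_neg_of_add_eq_zero_left h2
      · rw [hsum, Pi.single_eq_same]
      · simp only [Pi.smul_apply, Pi.sub_apply, smul_eq_mul]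
        have h2 : ∀ j : Fin n, t * ((Pi.single ⟨i + 1 + 1, h⟩ 1 : Fin n → ℂ) j -
            (Pi.single ⟨i, Nat.lt_of_succ_lt h'⟩ 1 : Fin n → ℂ) j) *
            (t * ((Pi.single ⟨i + 1 + 1, h⟩ 1 : Fin n → ℂ) j -
              (Pi.single ⟨i, Nat.lt_of_succ_lt h'⟩ 1 : Fin n → ℂ) j)) =
            (1 / 2) * ((Pi.single ⟨i + 1 + 1, h⟩ 1 : Fin n → ℂ) j *
              (((Pi.single ⟨i + 1 + 1, h⟩ 1 : Fin n → ℂ) -
              (Pi.single ⟨i, Nat.lt_of_succ_lt h'⟩ 1 : Fin n → ℂ)) j)) -
            (1 / 2) * ((Pi.single ⟨i, Nat.lt_of_succ_lt h'⟩ 1 : Fin n → ℂ) j *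
              (((Pi.single ⟨i + 1 + 1, h⟩ 1 : Fin n → ℂ) -
              (Pi.single ⟨i, Nat.lt_of_succ_lt h'⟩ 1 : Fin n → ℂ)) j)) := by
          intro j
          rw [← ht, Pi.sub_apply]
          ring
        rw [Finset.sum_congr rfl fun j _ => h2 j, Finset.sum_sub_distrib, ← Finset.mul_sum,
          ← Finset.mul_sum, hsum, hsum, Pi.sub_apply, Pi.sub_apply, Pi.single_eq_same,
          Pi.single_eq_of_ne n3.symm, Pi.single_eq_of_ne n3, Pi.single_eq_same]
        norm_num
      · rw [hsum, Pi.smul_apply, Pi.sub_apply, Pi.single_eq_of_ne n2, Pi.single_eq_of_ne n1.symm,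
          sub_zero, smul_zero]
      · have h2 : ve E (t • (Pi.single ⟨i + 1 + 1, h⟩ 1 - Pi.single ⟨i, Nat.lt_of_succ_lt h'⟩ 1)) =
            t • (E ⟨i + 1 + 1, h⟩ - E ⟨i, Nat.lt_of_succ_lt h'⟩) := by
          rw [← hveS ⟨i + 1 + 1, h⟩, ← hveS ⟨i, Nat.lt_of_succ_lt h'⟩]
          unfold ve
          rw [← Finset.sum_sub_distrib, Finset.smul_sum]
          refine Finset.sum_congr rfl fun j _ => ?_
          rw [Pi.smul_apply, Pi.sub_apply, smul_assoc, sub_smul]
        rw [h2, hveS, mul_smul_comm, mul_sub, hE.anti _ _ n1.symm, sub_neg_eq_add]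
        rfl)
    (by
      intro i j hi hj hij
      have h1 := hθ (G i hi) (G j hj) 0 ?_
      · rw [map_zero, Submodule.coe_zero] at h1
        exact (sub_eq_zero.1 h1.symm)
      · rw [Submodule.coe_zero]
        symm
        rw [sub_eq_zero]
        have ne1 : (⟨i, Nat.lt_of_succ_lt hi⟩ : Fin n) ≠ ⟨j, Nat.lt_of_succ_lt hj⟩ := by
          intro h'
          have := congrArg Fin.val h'
          simp at this
          omega
        have ne2 : (⟨i, Nat.lt_of_succ_lt hi⟩ : Fin n) ≠ ⟨j + 1, hj⟩ := by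
          intro h'
          have := congrArg Fin.val h'
          simp at this
          omega
        have ne3 : (⟨i + 1, hi⟩ : Fin n) ≠ ⟨j, Nat.lt_of_succ_lt hj⟩ := by
          intro h'
          have := congrArg Fin.val h'
          simp at this
          omega
        have ne4 : (⟨i + 1, hi⟩ : Fin n) ≠ ⟨j + 1, hj⟩ := by
          intro h'
          have := congrArg Fin.val h'
          simp at this
          omega
        have e1 := Cl_br hE (hne i hi) ⟨j, Nat.lt_of_succ_lt hj⟩
        have e2 := Cl_br hE (hne i hi) ⟨j + 1, hj⟩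
        rw [if_neg ne3.symm, if_neg ne1.symm, sub_zero, sub_eq_zero] at e1
        rw [if_neg ne4.symm, if_neg ne2.symm, sub_zero, sub_eq_zero] at e2
        change E _ * E _ * (E _ * E _) = E _ * E _ * (E _ * E _)
        rw [← mul_assoc, e1, mul_assoc, e2, ← mul_assoc])
    (n - 1) (by omega)
  refine ⟨S, hS, ?_⟩
  -- the products of two generators
  have hstep : ∀ d (a b : Fin n) (hab : a ≠ b), (b : ℕ) = a + 1 + d → ∀ u,
      (θ ⟨E a * E b, Cl_mem_so hab⟩ : Module.End ℂ U') (S u) = S ((E a * E b) u) := by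
    intro d
    induction d with
    | zero =>
      intro a b hab h u
      have hb : (a : ℕ) + 1 < n := by
        have := b.2
        omega
      have h1 : b = ⟨(a : ℕ) + 1, hb⟩ := Fin.ext (by simpa using h)
      subst h1
      exact hSi a hb (by omega) u
    | succ d ih =>
      intro a b hab h u
      have hc : (a : ℕ) + 1 + d < n := by
        have := b.2
        omega
      obtain ⟨c, hc'⟩ : ∃ c : Fin n, c = ⟨(a : ℕ) + 1 + d, hc⟩ := ⟨_, rfl⟩
      have hcv : (c : ℕ) = a + 1 + d := by rw [hc']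
      have hac : a ≠ c := by
        intro h'
        rw [← h'] at hcv
        omega
      have hcb' : (c : ℕ) + 1 < n := by
        have := b.2
        omega
      have hb' : b = ⟨(c : ℕ) + 1, hcb'⟩ := Fin.ext (by
        change (b : ℕ) = c + 1
        omega)
      have hcb : c ≠ b := by
        intro h'
        rw [← h'] at h
        omega
      have h1 := ih a c hac hcv
      have h2 : ∀ u, (θ ⟨E c * E b, Cl_mem_so hcb⟩ : Module.End ℂ U') (S u) = S ((E c * E b) u) := by
        intro u
        subst hb'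
        exact hSi c hcb' (by omega) u
      have h3 := hθ ⟨E a * E c, Cl_mem_so hac⟩ ⟨E c * E b, Cl_mem_so hcb⟩
        ((2 : ℂ) • ⟨E a * E b, Cl_mem_so hab⟩) (by
          rw [Submodule.coe_smul]
          exact (simple_br hE hac hcb hab).symm)
      rw [map_smul, Submodule.coe_smul] at h3
      have h4 := simple_br hE hac hcb hab
      have h5 : (2 : ℂ) • (θ ⟨E a * E b, Cl_mem_so hab⟩ : Module.End ℂ U') (S u) =
          (2 : ℂ) • S ((E a * E b) u) := by
        rw [← LinearMap.smul_apply, h3, LinearMap.sub_apply, Module.End.mul_apply,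
          Module.End.mul_apply, h2, h1, h1, h2, ← map_smul, ← LinearMap.smul_apply, ← h4,
          LinearMap.sub_apply, map_sub]
        rfl
      exact smul_right_injective _ two_ne_zero h5
  rintro ⟨x, hx⟩
  refine Submodule.span_induction (p := fun x hx => ∀ u,
    (θ ⟨x, hx⟩ : Module.End ℂ U') (S u) = S (x u)) ?_ ?_ ?_ ?_ hx
  · rintro _ ⟨i, j, hij, rfl⟩ u
    rcases lt_or_gt_of_ne hij with h | h
    · exact hstep (j - i - 1) i j hij (by
        have : (i : ℕ) < j := h
        omega) u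
    · have h1 := hstep (i - j - 1) j i hij.symm (by
        have : (j : ℕ) < i := h
        omega) u
      have h2 : (⟨E i * E j, Cl_mem_so hij⟩ : soE E) = -⟨E j * E i, Cl_mem_so hij.symm⟩ :=
        Subtype.ext (hE.anti i j hij)
      change (θ (⟨E i * E j, Cl_mem_so hij⟩ : soE E) : Module.End ℂ U') (S u) = _
      rw [h2, map_neg, Submodule.coe_neg, LinearMap.neg_apply, h1, hE.anti i j hij,
        LinearMap.neg_apply, map_neg]
  · intro u
    have h1 : (⟨0, Submodule.zero_mem _⟩ : soE E) = 0 := rfl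
    rw [h1, map_zero, Submodule.coe_zero, LinearMap.zero_apply, LinearMap.zero_apply, map_zero]
  · intro x y hx hy h1 h2 u
    have h3 : (⟨x + y, Submodule.add_mem _ hx hy⟩ : soE E) = ⟨x, hx⟩ + ⟨y, hy⟩ := rfl
    rw [h3, map_add, Submodule.coe_add, LinearMap.add_apply, LinearMap.add_apply, map_add, h1, h2]
  · intro c x hx h1 u
    have h3 : (⟨c • x, Submodule.smul_mem _ c hx⟩ : soE E) = c • ⟨x, hx⟩ := rfl
    rw [h3, map_smul, Submodule.coe_smul, LinearMap.smul_apply, LinearMap.smul_apply, map_smul, h1]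

end core

end Pool.Agent.Run7.h2.OR
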