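import Pool.Agent.Run7.h2.OR.O3

set_option autoImplicit false
set_option linter.unusedSimpArgs false

/-!
# The Lie algebra `so(3)`
-/

open Module Pool.Agent.Y102.SP

noncomputable section

namespace Pool.Agent.Run7.h2.OR

/-- Quaternions. -/
structure Quat {R : Type} [Ring R] (a b c : R) : Prop where
  aa : a * a = -1
  bb : b * b = -1
  cc : c * c = -1
  ab : a * b = c
  ba : b * a = -c
  bc : b * c = a
  cb : c * b = -a
  ca : c * a = b
  ac : a * c = -b

variable {U : Type} [AddCommGroup U] [Module ℂ U] {E : Fin 3 → Module.End ℂ U}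

theorem quat_of (hE : CE E) : Quat (E 0 * E 1) (E 1 * E 2) (E 0 * E 2) := by
  have h0 := hE.sq 0
  have h1 := hE.sq 1
  have h2 := hE.sq 2
  have h10 : E 1 * E 0 = -(E 0 * E 1) := hE.anti 1 0 (by decide)
  have h20 : E 2 * E 0 = -(E 0 * E 2) := hE.anti 2 0 (by decide)
  have h21 : E 2 * E 1 = -(E 1 * E 2) := hE.anti 2 1 (by decide)
  have m0 : ∀ x, E 0 * (E 0 * x) = x := fun x => by rw [← mul_assoc, h0, one_mul]
  have m1 : ∀ x, E 1 * (E 1 * x) = x := fun x => by rw [← mul_assoc, h1, one_mul]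
  have m2 : ∀ x, E 2 * (E 2 * x) = x := fun x => by rw [← mul_assoc, h2, one_mul]
  have m10 : ∀ x, E 1 * (E 0 * x) = -(E 0 * (E 1 * x)) := fun x => by
    rw [← mul_assoc, h10, neg_mul, mul_assoc]
  have m20 : ∀ x, E 2 * (E 0 * x) = -(E 0 * (E 2 * x)) := fun x => by
    rw [← mul_assoc, h20, neg_mul, mul_assoc]
  have m21 : ∀ x, E 2 * (E 1 * x) = -(E 1 * (E 2 * x)) := fun x => by
    rw [← mul_assoc, h21, neg_mul, mul_assoc]
  constructor <;>
    simp only [mul_assoc, h0, h1, h2, h10, h20, h21, m0, m1, m2, m10, m20, m21, mul_neg, neg_neg,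
      mul_one]

theorem so3_coord (hE : CE E) {x : Module.End ℂ U} (hx : x ∈ soE E) : ∃ x1 x2 x3 : ℂ,
    x = x1 • (E 0 * E 1) + x2 • (E 1 * E 2) + x3 • (E 0 * E 2) := by
  induction hx using Submodule.span_induction with
  | mem x hx =>
    obtain ⟨i, j, hij, rfl⟩ := hx
    have h10 : E 1 * E 0 = -(E 0 * E 1) := hE.anti 1 0 (by decide)
    have h20 : E 2 * E 0 = -(E 0 * E 2) := hE.anti 2 0 (by decide)
    have h21 : E 2 * E 1 = -(E 1 * E 2) := hE.anti 2 1 (by decide)
    fin_cases i <;> fin_cases j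
    · exact absurd rfl hij
    · exact ⟨1, 0, 0, by simp⟩
    · exact ⟨0, 0, 1, by simp⟩
    · refine ⟨-1, 0, 0, ?_⟩
      change E 1 * E 0 = _
      rw [h10]
      module
    · exact absurd rfl hij
    · exact ⟨0, 1, 0, by simp⟩
    · refine ⟨0, 0, -1, ?_⟩
      change E 2 * E 0 = _
      rw [h20]
      module
    · refine ⟨0, -1, 0, ?_⟩
      change E 2 * E 1 = _
      rw [h21]
      module
    · exact absurd rfl hij
  | zero => exact ⟨0, 0, 0, by simp⟩
  | add x y _ _ hx hy =>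
    obtain ⟨x1, x2, x3, rfl⟩ := hx
    obtain ⟨y1, y2, y3, rfl⟩ := hy
    exact ⟨x1 + y1, x2 + y2, x3 + y3, by module⟩
  | smul c x _ hx =>
    obtain ⟨x1, x2, x3, rfl⟩ := hx
    exact ⟨c * x1, c * x2, c * x3, by module⟩

theorem so3_le (J : Submodule ℂ (Module.End ℂ U)) (hE : CE E) (ha : E 0 * E 1 ∈ J)
    (hb : E 1 * E 2 ∈ J) (hc : E 0 * E 2 ∈ J) : soE E ≤ J := by
  intro x hx
  obtain ⟨x1, x2, x3, rfl⟩ := so3_coord hE hx
  exact J.add_mem (J.add_mem (J.smul_mem _ ha) (J.smul_mem _ hb)) (J.smul_mem _ hc)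

theorem so3_simple (hE : CE E) (J : Submodule ℂ (Module.End ℂ U)) (hJ : J ≤ soE E)
    (hbr : ∀ x ∈ soE E, ∀ y ∈ J, x * y - y * x ∈ J) : J = ⊥ ∨ J = soE E := by
  by_cases hJ0 : J = ⊥
  · exact Or.inl hJ0
  right
  refine le_antisymm hJ ?_
  obtain ⟨y, hy, hy0⟩ := (Submodule.ne_bot_iff J).1 hJ0
  obtain ⟨y1, y2, y3, hyc⟩ := so3_coord hE (hJ hy)
  have hq := quat_of hE
  have ma : E 0 * E 1 ∈ soE E := Cl_mem_so (by decide)
  have mb : E 1 * E 2 ∈ soE E := Cl_mem_so (by decide)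
  have mc : E 0 * E 2 ∈ soE E := Cl_mem_so (by decide)
  obtain ⟨a, ha⟩ : ∃ a, a = E 0 * E 1 := ⟨_, rfl⟩
  obtain ⟨b, hb⟩ : ∃ b, b = E 1 * E 2 := ⟨_, rfl⟩
  obtain ⟨c, hc⟩ : ∃ c, c = E 0 * E 2 := ⟨_, rfl⟩
  rw [← ha, ← hb, ← hc] at hq hyc
  rw [← ha] at ma
  rw [← hb] at mb
  rw [← hc] at mc
  have hall : a ∈ J ∨ b ∈ J ∨ c ∈ J → soE E ≤ J := by
    have h2 : ∀ z : Module.End ℂ U, (2 : ℂ) • z ∈ J → z ∈ J := by
      intro z hz
      have h3 := J.smul_mem (2 : ℂ)⁻¹ hz
      rwa [smul_smul, inv_mul_cancel₀ two_ne_zero, one_smul] at h3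
    rintro (h | h | h)
    · have h1 : b ∈ J := by
        refine h2 _ ?_
        have h3 := hbr c mc a h
        rw [hq.ca, hq.ac, sub_neg_eq_add, ← two_smul ℂ] at h3
        exact h3
      have h3 : c ∈ J := by
        refine h2 _ ?_
        have h4 := J.neg_mem (hbr b mb a h)
        rw [hq.ba, hq.ab] at h4
        convert h4 using 1
        module
      exact so3_le J hE (ha ▸ h) (hb ▸ h1) (hc ▸ h3)
    · have h1 : a ∈ J := by
        refine h2 _ ?_
        have h4 := J.neg_mem (hbr c mc b h)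
        rw [hq.cb, hq.bc] at h4
        convert h4 using 1
        module
      have h3 : c ∈ J := by
        refine h2 _ ?_
        have h3 := hbr a ma b h
        rw [hq.ab, hq.ba, sub_neg_eq_add, ← two_smul ℂ] at h3
        exact h3
      exact so3_le J hE (ha ▸ h1) (hb ▸ h) (hc ▸ h3)
    · have h1 : a ∈ J := by
        refine h2 _ ?_
        have h3 := hbr b mb c h
        rw [hq.bc, hq.cb, sub_neg_eq_add, ← two_smul ℂ] at h3
        exact h3
      have h3 : b ∈ J := by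
        refine h2 _ ?_
        have h4 := J.neg_mem (hbr a ma c h)
        rw [hq.ac, hq.ca] at h4
        convert h4 using 1
        module
      exact so3_le J hE (ha ▸ h1) (hb ▸ h3) (hc ▸ h)
  have hdb : ∀ z ∈ soE E, y + (4 : ℂ)⁻¹ • (z * (z * y - y * z) - (z * y - y * z) * z) ∈ J :=
    fun z hz => J.add_mem hy (J.smul_mem _ (hbr z hz _ (hbr z hz y hy)))
  have h1 : y1 • a ∈ J := by
    convert hdb a ma using 1
    rw [hyc]
    simp only [mul_add, add_mul, mul_sub, sub_mul, mul_smul_comm, smul_mul_assoc, hq.aa, hq.ab,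
      hq.ac, hq.ba, hq.ca, hq.bb, hq.cc, hq.bc, hq.cb, mul_neg, neg_mul, mul_one, one_mul]
    module
  have h2 : y2 • b ∈ J := by
    convert hdb b mb using 1
    rw [hyc]
    simp only [mul_add, add_mul, mul_sub, sub_mul, mul_smul_comm, smul_mul_assoc, hq.aa, hq.ab,
      hq.ac, hq.ba, hq.ca, hq.bb, hq.cc, hq.bc, hq.cb, mul_neg, neg_mul, mul_one, one_mul]
    module
  have h3 : y3 • c ∈ J := by
    convert hdb c mc using 1
    rw [hyc]
    simp only [mul_add, add_mul, mul_sub, sub_mul, mul_smul_comm, smul_mul_assoc, hq.aa, hq.ab,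
      hq.ac, hq.ba, hq.ca, hq.bb, hq.cc, hq.bc, hq.cb, mul_neg, neg_mul, mul_one, one_mul]
    module
  have hcan : ∀ (t : ℂ) (z : Module.End ℂ U), t ≠ 0 → t • z ∈ J → z ∈ J := by
    intro t z ht hz
    have h4 := J.smul_mem t⁻¹ hz
    rwa [smul_smul, inv_mul_cancel₀ ht, one_smul] at h4
  by_cases e1 : y1 = 0
  · by_cases e2 : y2 = 0
    · by_cases e3 : y3 = 0
      · exfalso
        apply hy0
        rw [hyc, e1, e2, e3]
        simp
      · exact hall (Or.inr (Or.inr (hcan _ _ e3 h3)))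
    · exact hall (Or.inr (Or.inl (hcan _ _ e2 h2)))
  · exact hall (Or.inl (hcan _ _ e1 h1))

theorem so3_main [Nontrivial U] (hE : CE E) (𝔥 : Submodule ℂ (Module.End ℂ U)) (h𝔥 : 𝔥 ≤ soE E)
    (hbr : ∀ x ∈ 𝔥, ∀ y ∈ 𝔥, x * y - y * x ∈ 𝔥)
    (gen : ∀ i j, E i * E j ∈ Algebra.adjoin ℂ (𝔥 : Set (Module.End ℂ U))) : soE E ≤ 𝔥 := by
  intro x0 hx0
  by_contra hcon
  obtain ⟨f, hf0, hf⟩ := Submodule.exists_dual_map_eq_bot_of_notMem hcon inferInstance
  have hf' : ∀ x ∈ 𝔥, f x = 0 := by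
    intro x hx
    have h1 : f x ∈ 𝔥.map f := ⟨x, hx, rfl⟩
    rw [hf] at h1
    exact h1
  have hq := quat_of hE
  obtain ⟨a, ha⟩ : ∃ a, a = E 0 * E 1 := ⟨_, rfl⟩
  obtain ⟨b, hb⟩ : ∃ b, b = E 1 * E 2 := ⟨_, rfl⟩
  obtain ⟨c, hc⟩ : ∃ c, c = E 0 * E 2 := ⟨_, rfl⟩
  have ga := gen 0 1
  have gb := gen 1 2
  rw [← ha, ← hb, ← hc] at hq
  rw [← ha] at ga
  rw [← hb] at gb
  obtain ⟨v, hv⟩ : ∃ v, v = f a • a + f b • b + f c • c := ⟨_, rfl⟩
  have hvx : ∀ x ∈ 𝔥, v * x = -(x * v) := by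
    intro x hx
    obtain ⟨x1, x2, x3, h1⟩ := so3_coord hE (h𝔥 hx)
    rw [← ha, ← hb, ← hc] at h1
    have h2 := hf' x hx
    rw [h1, map_add, map_add, map_smul, map_smul, map_smul, smul_eq_mul, smul_eq_mul,
      smul_eq_mul] at h2
    have h3 : v * x + x * v =
        (-2 * (x1 * f a + x2 * f b + x3 * f c)) • (1 : Module.End ℂ U) := by
      rw [hv, h1]
      simp only [mul_add, add_mul, mul_smul_comm, smul_mul_assoc, hq.aa, hq.ab,
        hq.ac, hq.ba, hq.ca, hq.bb, hq.cc, hq.bc, hq.cb]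
      module
    rw [h2, mul_zero, zero_smul] at h3
    exact eq_neg_of_add_eq_zero_left h3
  have hvv : v * v = (-(f a * f a + f b * f b + f c * f c)) • (1 : Module.End ℂ U) := by
    rw [hv]
    simp only [mul_add, add_mul, mul_smul_comm, smul_mul_assoc, hq.aa, hq.ab,
      hq.ac, hq.ba, hq.ca, hq.bb, hq.cc, hq.bc, hq.cb]
    module
  have hva : a * v + v * a = (-2 * f a) • (1 : Module.End ℂ U) := by
    rw [hv]
    simp only [mul_add, add_mul, mul_smul_comm, smul_mul_assoc, hq.aa, hq.ab,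
      hq.ac, hq.ba, hq.ca]
    module
  have hvb : b * v + v * b = (-2 * f b) • (1 : Module.End ℂ U) := by
    rw [hv]
    simp only [mul_add, add_mul, mul_smul_comm, smul_mul_assoc, hq.bb, hq.ab,
      hq.bc, hq.ba, hq.cb]
    module
  have hvc : c * v + v * c = (-2 * f c) • (1 : Module.End ℂ U) := by
    rw [hv]
    simp only [mul_add, add_mul, mul_smul_comm, smul_mul_assoc, hq.cc, hq.ca,
      hq.ac, hq.cb, hq.bc]
    module
  have hone : ∀ t : ℂ, t • (1 : Module.End ℂ U) = 0 → t = 0 := fun t ht =>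
    (smul_eq_zero.1 ht).resolve_right one_ne_zero
  by_cases hN : f a * f a + f b * f b + f c * f c = 0
  · -- isotropic
    rw [hN, neg_zero, zero_smul] at hvv
    have h1 : ∀ z ∈ Algebra.adjoin ℂ (𝔥 : Set (Module.End ℂ U)), ∃ z', v * z = z' * v := by
      intro z hz
      induction hz using Algebra.adjoin_induction with
      | mem x hx => exact ⟨-x, by rw [hvx x hx, neg_mul]⟩
      | algebraMap t => exact ⟨_, (Algebra.commutes t v).symm⟩
      | add x y _ _ hx hy =>
        obtain ⟨x', hx'⟩ := hx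
        obtain ⟨y', hy'⟩ := hy
        exact ⟨x' + y', by rw [mul_add, add_mul, hx', hy']⟩
      | mul x y _ _ hx hy =>
        obtain ⟨x', hx'⟩ := hx
        obtain ⟨y', hy'⟩ := hy
        exact ⟨x' * y', by rw [← mul_assoc, hx', mul_assoc, hy', mul_assoc]⟩
    have h2 : ∀ z ∈ Algebra.adjoin ℂ (𝔥 : Set (Module.End ℂ U)), v * z * v = 0 := by
      intro z hz
      obtain ⟨z', hz'⟩ := h1 z hz
      rw [hz', mul_assoc, hvv, mul_zero]
    have h3 : ∀ (z : Module.End ℂ U) (t : ℂ), z ∈ Algebra.adjoin ℂ (𝔥 : Set (Module.End ℂ U)) →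
        z * v + v * z = (-2 * t) • (1 : Module.End ℂ U) → t = 0 := by
      intro z t hz h
      have h4 : (-2 * t) • v = 0 := by
        calc (-2 * t) • v = v * ((-2 * t) • (1 : Module.End ℂ U)) := by
              rw [mul_smul_comm, mul_one]
          _ = v * z * v + v * v * z := by rw [← h]; noncomm_ring
          _ = 0 := by rw [h2 z hz, hvv, zero_mul, add_zero]
      rcases smul_eq_zero.1 h4 with h5 | h5
      · exact (mul_eq_zero.1 h5).resolve_left (by norm_num)
      · rw [h5, mul_zero, zero_mul, add_zero] at h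
        have h6 := hone _ h.symm
        exact (mul_eq_zero.1 h6).resolve_left (by norm_num)
    have gc : c ∈ Algebra.adjoin ℂ (𝔥 : Set (Module.End ℂ U)) := by
      rw [← hq.ab]
      exact mul_mem ga gb
    have fa := h3 a (f a) ga hva
    have fb := h3 b (f b) gb hvb
    have fc := h3 c (f c) gc hvc
    obtain ⟨x1, x2, x3, h1⟩ := so3_coord hE hx0
    rw [← ha, ← hb, ← hc] at h1
    apply hf0
    rw [h1, map_add, map_add, map_smul, map_smul, map_smul, fa, fb, fc, smul_zero, smul_zero,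
      smul_zero, add_zero, add_zero]
  · -- not isotropic
    have h1 : ∀ x ∈ 𝔥, ∀ y ∈ 𝔥, x * y = y * x := by
      intro x hx y hy
      have h2 := hvx _ (hbr x hx y hy)
      have h3 : v * (x * y - y * x) = (x * y - y * x) * v := by
        have e1 := hvx x hx
        have e2 := hvx y hy
        have e3 : v * (x * y) = x * y * v := by
          rw [← mul_assoc, e1, neg_mul, mul_assoc, e2, mul_neg, neg_neg, mul_assoc]
        have e4 : v * (y * x) = y * x * v := by
          rw [← mul_assoc, e2, neg_mul, mul_assoc, e1, mul_neg, neg_neg, mul_assoc]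
        rw [mul_sub, sub_mul, e3, e4]
      have h4 : (2 : ℂ) • (v * (x * y - y * x)) = 0 := by
        rw [two_smul]
        nth_rewrite 1 [h2]
        rw [h3, neg_add_cancel]
      have h5 : v * (x * y - y * x) = 0 := (smul_eq_zero.1 h4).resolve_left two_ne_zero
      have h6 : v * (v * (x * y - y * x)) = 0 := by rw [h5, mul_zero]
      rw [← mul_assoc, hvv, smul_mul_assoc, one_mul] at h6
      exact sub_eq_zero.1 ((smul_eq_zero.1 h6).resolve_left (neg_ne_zero.2 hN))
    have h2 : ∀ z ∈ Algebra.adjoin ℂ (𝔥 : Set (Module.End ℂ U)), ∀ x ∈ 𝔥, z * x = x * z := by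
      intro z hz
      induction hz using Algebra.adjoin_induction with
      | mem y hy => exact fun x hx => h1 y hy x hx
      | algebraMap t => exact fun x _ => Algebra.commutes t x
      | add y w _ _ hy hw => exact fun x hx => by rw [add_mul, mul_add, hy x hx, hw x hx]
      | mul y w _ _ hy hw =>
        intro x hx
        rw [mul_assoc, hw x hx, ← mul_assoc, hy x hx, mul_assoc]
    have h3 : ∀ z ∈ Algebra.adjoin ℂ (𝔥 : Set (Module.End ℂ U)),
        ∀ w ∈ Algebra.adjoin ℂ (𝔥 : Set (Module.End ℂ U)), z * w = w * z := by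
      intro z hz w hw
      induction hw using Algebra.adjoin_induction with
      | mem y hy => exact h2 z hz y hy
      | algebraMap t => exact (Algebra.commutes t z).symm
      | add x y _ _ hx hy => rw [add_mul, mul_add, hx, hy]
      | mul x y _ _ hx hy => rw [← mul_assoc, hx, mul_assoc, hy, ← mul_assoc]
    have h4 := h3 a ga b gb
    rw [hq.ab, hq.ba] at h4
    have h5 : (2 : ℂ) • c = 0 := by
      rw [two_smul]
      nth_rewrite 1 [h4]
      rw [neg_add_cancel]
    have h6 : c = 0 := (smul_eq_zero.1 h5).resolve_left two_ne_zero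
    have h7 := hq.cc
    rw [h6, mul_zero] at h7
    exact one_ne_zero (neg_eq_zero.1 h7.symm)

end Pool.Agent.Run7.h2.OR
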