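import Pool.Agent.Run7.h2.OR.O4
import Pool.Agent.N113.BT.Spin

set_option autoImplicit false
set_option linter.unusedSectionVars false

/-!
# Sums of spin representations are rigid
-/

open Module Pool.Agent.Y102.SP Pool.Agent.N113.BT

noncomputable section

namespace Pool.Agent.Run7.h2.OR

variable {I : Type} [Fintype I] [DecidableEq I] {U : I → Type} [∀ σ, AddCommGroup (U σ)]
  [∀ σ, Module ℂ (U σ)] [∀ σ, FiniteDimensional ℂ (U σ)] [∀ σ, Nontrivial (U σ)] {r : I → ℕ}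
  {E : ∀ σ, Fin (r σ) → Module.End ℂ (U σ)}

/-- The product of the algebras of endomorphisms. -/
abbrev PE {I : Type} (U : I → Type) [∀ σ, AddCommGroup (U σ)] [∀ σ, Module ℂ (U σ)] : Type :=
  ∀ σ, Module.End ℂ (U σ)

/-- The product of the orthogonal Lie algebras. -/
def soP (E : ∀ σ, Fin (r σ) → Module.End ℂ (U σ)) : Submodule ℂ (PE U) :=
  Submodule.pi Set.univ fun σ => soE (E σ)

omit [∀ σ, FiniteDimensional ℂ (U σ)] [∀ σ, Nontrivial (U σ)] in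
theorem mem_soP {z : PE U} : z ∈ soP E ↔ ∀ σ, z σ ∈ soE (E σ) := by
  unfold soP
  rw [Submodule.mem_pi]
  exact ⟨fun h σ => h σ (Set.mem_univ _), fun h σ _ => h σ⟩

theorem soP_br (hE : ∀ σ, CE (E σ)) : ∀ x ∈ soP E, ∀ y ∈ soP E, x * y - y * x ∈ soP E := by
  intro x hx y hy
  rw [mem_soP] at hx hy ⊢
  exact fun σ => soE_br (hE σ) (hx σ) (hy σ)

omit [∀ σ, FiniteDimensional ℂ (U σ)] [∀ σ, Nontrivial (U σ)] in
theorem single_mem {σ : I} {x : Module.End ℂ (U σ)} (hx : x ∈ soE (E σ)) :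
    (Pi.single σ x : PE U) ∈ soP E := by
  rw [mem_soP]
  intro τ
  by_cases h : τ = σ
  · subst h
    rw [Pi.single_eq_same]
    exact hx
  · rw [Pi.single_eq_of_ne h]
    exact Submodule.zero_mem _

/-- One factor is simple. -/
theorem fac_simple {n : ℕ} {V : Type} [AddCommGroup V] [Module ℂ V] [FiniteDimensional ℂ V]
    [Nontrivial V] {F : Fin n → Module.End ℂ V} (hn : n = 3 ∨ 6 ≤ n) (hF : CE F)
    (J : Submodule ℂ (Module.End ℂ V)) (hJ : J ≤ soE F)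
    (hbr : ∀ x ∈ soE F, ∀ y ∈ J, x * y - y * x ∈ J) : J = ⊥ ∨ J = soE F := by
  rcases hn with rfl | hn
  · exact so3_simple hF J hJ hbr
  · exact so_simple (by omega) hF J hJ hbr

/-- One factor is rigid. -/
theorem fac_main {n : ℕ} {V : Type} [AddCommGroup V] [Module ℂ V] [FiniteDimensional ℂ V]
    [Nontrivial V] {F : Fin n → Module.End ℂ V} (hn : n = 3 ∨ 6 ≤ n) (hF : CE F)
    (𝔥 : Submodule ℂ (Module.End ℂ V)) (h𝔥 : 𝔥 ≤ soE F)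
    (hbr : ∀ x ∈ 𝔥, ∀ y ∈ 𝔥, x * y - y * x ∈ 𝔥)
    (gen : ∀ i j, F i * F j ∈ Algebra.adjoin ℂ (𝔥 : Set (Module.End ℂ V))) : soE F ≤ 𝔥 := by
  rcases hn with rfl | hn
  · exact so3_main hF 𝔥 h𝔥 hbr gen
  · exact main hn hF 𝔥 h𝔥 hbr gen

section links

variable (hE : ∀ σ, CE (E σ)) (hr : ∀ σ, r σ = 3 ∨ 6 ≤ r σ)
  (𝔥 : Submodule ℂ (PE U)) (h𝔥 : 𝔥 ≤ soP E) (hbr : ∀ x ∈ 𝔥, ∀ y ∈ 𝔥, x * y - y * x ∈ 𝔥)
  (hS : ∀ σ, ∀ x ∈ soE (E σ), ∃ y ∈ 𝔥, y σ = x)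
include hE hr h𝔥 hbr hS

theorem p_ideal (σ τ : I) : (∀ y ∈ 𝔥, y τ = 0 → y σ = 0) ∨
    ∀ x ∈ soE (E σ), ∃ y ∈ 𝔥, y σ = x ∧ y τ = 0 := by
  let J : Submodule ℂ (Module.End ℂ (U σ)) :=
    (𝔥 ⊓ LinearMap.ker (LinearMap.proj τ : PE U →ₗ[ℂ] Module.End ℂ (U τ))).map
      (LinearMap.proj σ : PE U →ₗ[ℂ] Module.End ℂ (U σ))
  have hmem : ∀ x, x ∈ J ↔ ∃ y ∈ 𝔥, y σ = x ∧ y τ = 0 := by
    intro x
    constructor
    · rintro ⟨y, ⟨hy1, hy2⟩, h⟩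
      exact ⟨y, hy1, h, LinearMap.mem_ker.1 hy2⟩
    · rintro ⟨y, hy, h1, h2⟩
      exact ⟨y, ⟨hy, LinearMap.mem_ker.2 h2⟩, h1⟩
  have hJ1 : J ≤ soE (E σ) := by
    intro x hx
    obtain ⟨y, hy, rfl, -⟩ := (hmem x).1 hx
    exact mem_soP.1 (h𝔥 hy) σ
  have hJ2 : ∀ x ∈ soE (E σ), ∀ y ∈ J, x * y - y * x ∈ J := by
    intro x hx y' hy'
    obtain ⟨y, hy, h1, h0⟩ := (hmem y').1 hy'
    obtain ⟨x, hx', rfl⟩ := hS σ x hx
    refine (hmem _).2 ⟨x * y - y * x, hbr x hx' y hy, by rw [← h1]; rfl, ?_⟩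
    rw [Pi.sub_apply, Pi.mul_apply, Pi.mul_apply, h0, mul_zero, zero_mul, sub_zero]
  rcases fac_simple (hr σ) (hE σ) J hJ1 hJ2 with h | h
  · left
    intro y hy hy0
    have h1 : y σ ∈ J := (hmem _).2 ⟨y, hy, rfl, hy0⟩
    rw [h] at h1
    exact (Submodule.mem_bot ℂ).1 h1
  · right
    intro x hx
    rw [← h] at hx
    exact (hmem x).1 hx

/-- Two factors are independent or linked by an isomorphism. -/
theorem link_or (σ τ : I) : (∀ x ∈ soE (E σ), ∃ y ∈ 𝔥, y σ = x ∧ y τ = 0) ∨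
    ∃ θ : soE (E σ) ≃ₗ[ℂ] soE (E τ), (∀ x y z : soE (E σ),
      (z : Module.End ℂ (U σ)) = (x : Module.End ℂ (U σ)) * y - (y : Module.End ℂ (U σ)) * x →
      (θ z : Module.End ℂ (U τ)) = (θ x : Module.End ℂ (U τ)) * θ y -
        (θ y : Module.End ℂ (U τ)) * θ x) ∧
      ∀ y ∈ 𝔥, ∀ x : soE (E σ), (x : Module.End ℂ (U σ)) = y σ →
        (θ x : Module.End ℂ (U τ)) = y τ := by
  rcases p_ideal hE hr 𝔥 h𝔥 hbr hS σ τ with h | h
  swap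
  · exact Or.inl h
  right
  have hr3 : ∀ ρ, 3 ≤ r ρ := fun ρ => by
    rcases hr ρ with h | h <;> omega
  obtain ⟨i0, hi0⟩ : ∃ i : Fin (r σ), (i : ℕ) = 0 := ⟨⟨0, by have := hr3 σ; omega⟩, rfl⟩
  obtain ⟨j0, hj0⟩ : ∃ i : Fin (r σ), (i : ℕ) = 1 := ⟨⟨1, by have := hr3 σ; omega⟩, rfl⟩
  have hij : i0 ≠ j0 := fun h => by
    rw [h, hj0] at hi0
    exact one_ne_zero hi0
  have hback : ∀ y ∈ 𝔥, y σ = 0 → y τ = 0 := by
    rcases p_ideal hE hr 𝔥 h𝔥 hbr hS τ σ with h' | h'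
    · exact h'
    exfalso
    obtain ⟨y, hy, hyx⟩ := hS σ _ (Cl_mem_so (E := E σ) hij)
    obtain ⟨y', hy', h4, h5⟩ := h' (y τ) (mem_soP.1 (h𝔥 hy) τ)
    have h6 := h (y - y') (sub_mem hy hy') (by rw [Pi.sub_apply, h4, sub_self])
    rw [Pi.sub_apply, h5, sub_zero, hyx] at h6
    have h7 := simple_sq (hE σ) hij
    rw [h6, mul_zero] at h7
    exact one_ne_zero (neg_eq_zero.1 h7.symm)
  let p : 𝔥 →ₗ[ℂ] soE (E σ) := ((LinearMap.proj σ : PE U →ₗ[ℂ] Module.End ℂ (U σ)).comp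
    𝔥.subtype).codRestrict _ fun y => mem_soP.1 (h𝔥 y.2) σ
  let q : 𝔥 →ₗ[ℂ] soE (E τ) := ((LinearMap.proj τ : PE U →ₗ[ℂ] Module.End ℂ (U τ)).comp
    𝔥.subtype).codRestrict _ fun y => mem_soP.1 (h𝔥 y.2) τ
  have hps : Function.Surjective p := by
    rintro ⟨x, hx⟩
    obtain ⟨y, hy, h1⟩ := hS σ x hx
    exact ⟨⟨y, hy⟩, Subtype.ext h1⟩
  have hqs : Function.Surjective q := by
    rintro ⟨x, hx⟩
    obtain ⟨y, hy, h1⟩ := hS τ x hx
    exact ⟨⟨y, hy⟩, Subtype.ext h1⟩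
  have hker : LinearMap.ker p = LinearMap.ker q := by
    ext y
    rw [LinearMap.mem_ker, LinearMap.mem_ker]
    constructor
    · intro h1
      have h2 : (y : PE U) σ = 0 := congrArg Subtype.val h1
      exact Subtype.ext (hback y y.2 h2)
    · intro h1
      have h2 : (y : PE U) τ = 0 := congrArg Subtype.val h1
      exact Subtype.ext (h y y.2 h2)
  obtain ⟨θ, hθ⟩ : ∃ θ : soE (E σ) ≃ₗ[ℂ] soE (E τ), ∀ y, θ (p y) = q y := by
    refine ⟨(p.quotKerEquivOfSurjective hps).symm.trans ((Submodule.quotEquivOfEq _ _ hker).trans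
      (q.quotKerEquivOfSurjective hqs)), fun y => ?_⟩
    rw [LinearEquiv.trans_apply, LinearEquiv.trans_apply]
    have h1 : (p.quotKerEquivOfSurjective hps).symm (p y) = Submodule.Quotient.mk y := by
      rw [LinearEquiv.symm_apply_eq, LinearMap.quotKerEquivOfSurjective_apply_mk]
    rw [h1, Submodule.quotEquivOfEq_mk, LinearMap.quotKerEquivOfSurjective_apply_mk]
  refine ⟨θ, ?_, ?_⟩
  · intro x y z hz
    obtain ⟨X, rfl⟩ := hps x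
    obtain ⟨Y, rfl⟩ := hps y
    have h1 : p ⟨(X : PE U) * Y - (Y : PE U) * X, hbr X X.2 Y Y.2⟩ = z := Subtype.ext hz.symm
    rw [← h1, hθ, hθ, hθ]
    rfl
  · intro y hy x hx
    have h1 : p ⟨y, hy⟩ = x := Subtype.ext hx.symm
    rw [← h1, hθ]
    rfl

theorem p_ribet (h2 : ∀ σ τ, σ ≠ τ → ∀ x ∈ soE (E σ), ∃ y ∈ 𝔥, y σ = x ∧ y τ = 0) (σ : I)
    (Q : Finset I) : σ ∉ Q → ∀ x ∈ soE (E σ), ∃ y ∈ 𝔥, y σ = x ∧ ∀ t ∈ Q, y t = 0 := by
  induction Q using Finset.induction_on with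
  | empty =>
    intro _ x hx
    obtain ⟨y, hy, h1⟩ := hS σ x hx
    exact ⟨y, hy, h1, fun t ht => absurd ht (Finset.notMem_empty t)⟩
  | insert t Q htQ ih =>
    intro hsQ x hx
    have hsQ' : σ ∉ Q := fun h => hsQ (Finset.mem_insert_of_mem h)
    have hst : σ ≠ t := fun h => hsQ (h ▸ Finset.mem_insert_self _ _)
    have hr3 : 3 ≤ r σ := by
      rcases hr σ with h | h <;> omega
    have hx' := so_perfect hr3 (hE σ) hx
    clear hx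
    induction hx' using Submodule.span_induction with
    | mem x hx1 =>
      obtain ⟨x1, hx1, x2, hx2, rfl⟩ := hx1
      obtain ⟨y1, hy1, h1, h2'⟩ := ih hsQ' x1 hx1
      obtain ⟨y2, hy2, h3, h4⟩ := h2 σ t hst x2 hx2
      refine ⟨y1 * y2 - y2 * y1, hbr y1 hy1 y2 hy2, ?_, fun t' ht' => ?_⟩
      · rw [Pi.sub_apply, Pi.mul_apply, Pi.mul_apply, h1, h3]
      · rcases Finset.mem_insert.1 ht' with h5 | h5
        · rw [h5, Pi.sub_apply, Pi.mul_apply, Pi.mul_apply, h4, mul_zero, zero_mul, sub_zero]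
        · rw [Pi.sub_apply, Pi.mul_apply, Pi.mul_apply, h2' t' h5, mul_zero, zero_mul, sub_zero]
    | zero => exact ⟨0, 𝔥.zero_mem, rfl, fun t _ => rfl⟩
    | add x y hx1 hy1 hx2 hy2 =>
      obtain ⟨a, ha, h1, h2⟩ := hx2
      obtain ⟨b, hb, h3, h4⟩ := hy2
      refine ⟨a + b, 𝔥.add_mem ha hb, by rw [Pi.add_apply, h1, h3], fun t ht => ?_⟩
      rw [Pi.add_apply, h2 t ht, h4 t ht, add_zero]
    | smul c x hx1 hx2 =>
      obtain ⟨a, ha, h1, h2⟩ := hx2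
      refine ⟨c • a, 𝔥.smul_mem c ha, by rw [Pi.smul_apply, h1], fun t ht => ?_⟩
      rw [Pi.smul_apply, h2 t ht, smul_zero]

/-- Independent factors. -/
theorem le_of_two (h2 : ∀ σ τ, σ ≠ τ → ∀ x ∈ soE (E σ), ∃ y ∈ 𝔥, y σ = x ∧ y τ = 0) :
    soP E ≤ 𝔥 := by
  intro z hz
  have hs : ∀ σ, (Pi.single σ (z σ) : PE U) ∈ 𝔥 := by
    intro σ
    obtain ⟨y, hy, h1, h2⟩ := p_ribet hE hr 𝔥 h𝔥 hbr hS h2 σ (Finset.univ.erase σ)
      (Finset.notMem_erase _ _) (z σ) (mem_soP.1 hz σ)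
    have h3 : y = Pi.single σ (z σ) := by
      funext τ
      by_cases h : τ = σ
      · subst h
        rw [Pi.single_eq_same, h1]
      · rw [Pi.single_eq_of_ne h]
        exact h2 τ (Finset.mem_erase.2 ⟨h, Finset.mem_univ _⟩)
    rw [← h3]
    exact hy
  have h4 : z = ∑ σ, (Pi.single σ (z σ) : PE U) := (Finset.univ_sum_single z).symm
  rw [h4]
  exact Submodule.sum_mem _ fun σ _ => hs σ

/-- Factors of different ranks are independent. -/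
theorem two_of_rank {σ τ : I} (hne : r σ ≠ r τ) :
    ∀ x ∈ soE (E σ), ∃ y ∈ 𝔥, y σ = x ∧ y τ = 0 := by
  rcases link_or hE hr 𝔥 h𝔥 hbr hS σ τ with h | ⟨θ, hθ, -⟩
  · exact h
  exfalso
  have hr3 : ∀ ρ, 3 ≤ r ρ := fun ρ => by
    rcases hr ρ with h | h <;> omega
  exact hne (rank_eq (hr3 σ) (hr3 τ) (hE σ) (hE τ) θ hθ)

end links

section rigid

variable (hE : ∀ σ, CE (E σ)) (hr : ∀ σ, r σ = 3 ∨ 6 ≤ r σ)
  (𝔥 : Submodule ℂ (PE U)) (h𝔥 : 𝔥 ≤ soP E) (hbr : ∀ x ∈ 𝔥, ∀ y ∈ 𝔥, x * y - y * x ∈ 𝔥)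
  (hgen : ∀ z ∈ soP E, z ∈ Algebra.adjoin ℂ (𝔥 : Set (PE U)))
include hE hr h𝔥 hbr hgen

theorem p_surj (σ : I) : ∀ x ∈ soE (E σ), ∃ y ∈ 𝔥, y σ = x := by
  have hadj : ∀ z ∈ Algebra.adjoin ℂ (𝔥 : Set (PE U)), z σ ∈ Algebra.adjoin ℂ
      ((𝔥.map (LinearMap.proj σ : PE U →ₗ[ℂ] Module.End ℂ (U σ)) :
        Submodule ℂ (Module.End ℂ (U σ))) : Set (Module.End ℂ (U σ))) := by
    intro z hz
    induction hz using Algebra.adjoin_induction with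
    | mem x hx => exact Algebra.subset_adjoin ⟨x, hx, rfl⟩
    | algebraMap t => exact Subalgebra.algebraMap_mem _ t
    | add x y _ _ hx hy => exact Subalgebra.add_mem _ hx hy
    | mul x y _ _ hx hy => exact Subalgebra.mul_mem _ hx hy
  have key := fac_main (hr σ) (hE σ)
    (𝔥.map (LinearMap.proj σ : PE U →ₗ[ℂ] Module.End ℂ (U σ))) ?_ ?_ ?_
  · intro x hx
    obtain ⟨y, hy, h⟩ := key hx
    exact ⟨y, hy, h⟩
  · rintro _ ⟨y, hy, rfl⟩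
    exact mem_soP.1 (h𝔥 hy) σ
  · rintro _ ⟨x, hx, rfl⟩ _ ⟨y, hy, rfl⟩
    exact ⟨x * y - y * x, hbr x hx y hy, rfl⟩
  · intro i j
    by_cases h : i = j
    · subst h
      rw [(hE σ).sq]
      exact one_mem _
    · have h1 := hadj _ (hgen _ (single_mem (E := E) (Cl_mem_so (E := E σ) h)))
      rw [Pi.single_eq_same] at h1
      exact h1

theorem p_two (h8 : ∀ σ τ, r σ = 8 → r τ = 8 → σ = τ) {σ τ : I} (hst : σ ≠ τ) :
    ∀ x ∈ soE (E σ), ∃ y ∈ 𝔥, y σ = x ∧ y τ = 0 := by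
  have hS := p_surj hE hr 𝔥 h𝔥 hbr hgen
  rcases link_or hE hr 𝔥 h𝔥 hbr hS σ τ with h | ⟨θ, hθ, hθy⟩
  · exact h
  exfalso
  have hr3 : ∀ ρ, 3 ≤ r ρ := fun ρ => by
    rcases hr ρ with h | h <;> omega
  obtain ⟨i0, hi0⟩ : ∃ i : Fin (r σ), (i : ℕ) = 0 := ⟨⟨0, by have := hr3 σ; omega⟩, rfl⟩
  obtain ⟨j0, hj0⟩ : ∃ i : Fin (r σ), (i : ℕ) = 1 := ⟨⟨1, by have := hr3 σ; omega⟩, rfl⟩
  have hij : i0 ≠ j0 := fun h => by
    rw [h, hj0] at hi0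
    exact one_ne_zero hi0
  have h88 : ¬ (r σ = 8 ∧ r τ = 8) := fun h' => hst (h8 σ τ h'.1 h'.2)
  obtain ⟨S, hS', hSx⟩ := core_inter (hr3 σ) (hr3 τ) h88 (hE σ) (hE τ) θ hθ
  have hint : ∀ z ∈ Algebra.adjoin ℂ (𝔥 : Set (PE U)), ∀ u, (z τ) (S u) = S ((z σ) u) := by
    intro z hz
    induction hz using Algebra.adjoin_induction with
    | mem x hx =>
      intro u
      have h1 := hSx ⟨x σ, mem_soP.1 (h𝔥 hx) σ⟩ u
      rw [hθy x hx ⟨x σ, mem_soP.1 (h𝔥 hx) σ⟩ rfl] at h1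
      exact h1
    | algebraMap t =>
      intro u
      change (algebraMap ℂ (Module.End ℂ (U τ)) t) (S u) = S ((algebraMap ℂ (Module.End ℂ (U σ)) t) u)
      rw [Module.algebraMap_end_apply, Module.algebraMap_end_apply, map_smul]
    | add x y _ _ hx hy =>
      intro u
      rw [Pi.add_apply, Pi.add_apply, LinearMap.add_apply, LinearMap.add_apply, map_add, hx, hy]
    | mul x y _ _ hx hy =>
      intro u
      rw [Pi.mul_apply, Pi.mul_apply, Module.End.mul_apply, Module.End.mul_apply, hy, hx]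
  have h1 := hint _ (hgen _ (single_mem (E := E) (Cl_mem_so (E := E σ) hij)))
  apply hS'
  refine LinearMap.ext fun u => ?_
  have h2 := h1 ((E σ i0 * E σ j0) u)
  rw [Pi.single_eq_same, Pi.single_eq_of_ne hst.symm, LinearMap.zero_apply, ← Module.End.mul_apply,
    simple_sq (hE σ) hij, LinearMap.neg_apply, Module.End.one_apply, map_neg] at h2
  rw [LinearMap.zero_apply]
  exact neg_eq_zero.1 h2.symm

end rigid

/-- **The sum of spin representations is rigid.** -/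
theorem rigid_soP (hE : ∀ σ, CE (E σ)) (hr : ∀ σ, r σ = 3 ∨ 6 ≤ r σ)
    (h8 : ∀ σ τ, r σ = 8 → r τ = 8 → σ = τ) : Rigid (R := PE U) (soP E) := by
  intro 𝔥 h𝔥 hbr hgen
  exact le_of_two hE hr 𝔥 h𝔥 hbr (p_surj hE hr 𝔥 h𝔥 hbr hgen) fun σ τ hst =>
    p_two hE hr 𝔥 h𝔥 hbr hgen h8 hst

end Pool.Agent.Run7.h2.OR
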