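import Pool.Agent.Run7.h2.OR.O5

set_option autoImplicit false
set_option linter.unusedSectionVars false

/-!
# Sums of spin parts of the homology of an abelian variety
-/

open Module Function TensorProduct Matrix

noncomputable section

namespace Pool.Agent.Run7.h2.OR

open Pool.Agent.R918 Pool.Agent.Y102 Pool.Agent.Y102.SP Pool.Agent.W516.DR Pool.Agent.H204R3.GP
  Pool.Agent.N113.BT

variable {g : ℕ} {A : AbVar g}

/-! ### Rigid parts given by a homomorphism -/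

/-- A rigid part given by a rigid Lie algebra in any ring. -/
theorem rigPart_hom {R : Type} [Ring R] [Algebra ℂ R] {S0 : Submodule ℂ R} (hrig : Rigid S0)
    (hbr : ∀ x ∈ S0, ∀ y ∈ S0, x * y - y * x ∈ S0)
    (ι : R →ₗ[ℂ] Module.End ℂ (ℂ ⊗[ℚ] A.H1)) (hinj : Injective ι)
    (hmul : ∀ x y, ι (x * y) = ι x * ι y)
    (hcomm : ∀ X ∈ A.NA, ι 1 * X.baseChange ℂ = X.baseChange ℂ * ι 1)
    (hle : ∀ X ∈ A.NA, ∃ c : ℂ, ι 1 * X.baseChange ℂ + c • ι 1 ∈ S0.map ι)
    (hgen : ∀ z ∈ S0, ∃ y ∈ Algebra.adjoin ℂ (cx A.NA : Set (Module.End ℂ (ℂ ⊗[ℚ] A.H1))),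
      ι z = ι 1 * y) : RigPart A (ι 1) (S0.map ι) := by
  refine ⟨cx_comm hcomm, by rw [← hmul, one_mul], ?_, ?_, ?_, ?_, ?_⟩
  · rintro _ ⟨z, -, rfl⟩
    rw [← hmul, ← hmul, one_mul, mul_one]
    exact ⟨rfl, rfl⟩
  · rintro _ ⟨x, hx, rfl⟩ _ ⟨y, hy, rfl⟩
    rw [← hmul, ← hmul, ← map_sub]
    exact ⟨_, hbr _ hx _ hy, rfl⟩
  · intro x hx
    induction hx using Submodule.span_induction with
    | mem x hx =>
      obtain ⟨X, hX, rfl⟩ := hx
      exact hle X hX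
    | zero =>
      refine ⟨0, ?_⟩
      rw [mul_zero, zero_smul, add_zero]
      exact Submodule.zero_mem _
    | add x y _ _ hx hy =>
      obtain ⟨c, hc⟩ := hx
      obtain ⟨d, hd⟩ := hy
      refine ⟨c + d, ?_⟩
      have h1 := Submodule.add_mem _ hc hd
      convert h1 using 1
      rw [mul_add, add_smul]
      abel
    | smul t x _ hx =>
      obtain ⟨c, hc⟩ := hx
      refine ⟨t * c, ?_⟩
      have h1 := Submodule.smul_mem _ t hc
      convert h1 using 1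
      rw [mul_smul_comm, smul_add, smul_smul]
  · rintro _ ⟨z, hz, rfl⟩
    exact hgen z hz
  · intro L hL hb hg
    exact hrig.map ι hinj hmul L hL hb hg

/-- The elements of a perfect rigid part come from the derived algebra. -/
theorem RigPart_lift {e : Module.End ℂ (ℂ ⊗[ℚ] A.H1)}
    {S : Submodule ℂ (Module.End ℂ (ℂ ⊗[ℚ] A.H1))} (hr : RigPart A e S)
    (hperf : S ≤ Submodule.span ℂ {z | ∃ x ∈ S, ∃ y ∈ S, z = x * y - y * x})
    {𝔮 : Submodule ℚ (Module.End ℚ A.H1)} (h : A.Full 𝔮) :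
    ∀ z ∈ S, ∃ y ∈ cx (Pool.Agent.Y102.der 𝔮), z = e * y := by
  have hc : ∀ x ∈ cx 𝔮, e * x = x * e := fun x hx => hr.comm x (cx_mono h.le hx)
  intro z hz
  have hz' := hperf hz
  clear hz
  induction hz' using Submodule.span_induction with
  | mem z hz =>
    obtain ⟨a, ha, b, hb, rfl⟩ := hz
    obtain ⟨x, hx, c, rfl⟩ := hr.surj h a ha
    obtain ⟨y, hy, d, rfl⟩ := hr.surj h b hb
    refine ⟨x * y - y * x, ?_, ?_⟩
    · refine cx_br (T := cx (Pool.Agent.Y102.der 𝔮)) (fun X hX Y hY => ?_) x hx y hy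
      rw [← bc_br]
      exact bc_mem (Submodule.subset_span ⟨X, hX, Y, hY, rfl⟩)
    · have hx' := hc x hx
      have hy' := hc y hy
      have e2 : e * x * e = e * x := by rw [mul_assoc, ← hx', ← mul_assoc, hr.idem]
      have e3 : e * y * e = e * y := by rw [mul_assoc, ← hy', ← mul_assoc, hr.idem]
      have e4 : e * (e * y) = e * y := by rw [← mul_assoc, hr.idem]
      have e5 : e * (e * x) = e * x := by rw [← mul_assoc, hr.idem]
      have e6 : (e * x) * (e * y) = e * (x * y) := by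
        calc (e * x) * (e * y) = e * (x * e) * y := by simp only [mul_assoc]
          _ = e * e * (x * y) := by rw [← hx']; simp only [mul_assoc]
          _ = e * (x * y) := by rw [hr.idem]
      have e7 : (e * y) * (e * x) = e * (y * x) := by
        calc (e * y) * (e * x) = e * (y * e) * x := by simp only [mul_assoc]
          _ = e * e * (y * x) := by rw [← hy']; simp only [mul_assoc]
          _ = e * (y * x) := by rw [hr.idem]
      rw [add_mul, mul_add, mul_add, add_mul, mul_add, mul_add, e6, e7]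
      simp only [smul_mul_assoc, mul_smul_comm, e2, e3, e4, e5, hr.idem, mul_sub]
      module
  | zero => exact ⟨0, Submodule.zero_mem _, (mul_zero _).symm⟩
  | add a b _ _ ha hb =>
    obtain ⟨x, hx, h1⟩ := ha
    obtain ⟨y, hy, h2⟩ := hb
    exact ⟨x + y, Submodule.add_mem _ hx hy, by rw [mul_add, h1, h2]⟩
  | smul c a _ ha =>
    obtain ⟨x, hx, h1⟩ := ha
    exact ⟨c • x, Submodule.smul_mem _ c hx, by rw [mul_smul_comm, h1]⟩

/-! ### Matrices -/

section single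

variable {n d : ℕ} {E : Fin n → Matrix (Fin d) (Fin d) ℂ}

/-- The span of the products. -/
def soMM (E : Fin n → Matrix (Fin d) (Fin d) ℂ) : Submodule ℂ (Matrix (Fin d) (Fin d) ℂ) :=
  Submodule.span ℂ {Y | ∃ i j, i ≠ j ∧ Y = E i * E j}

theorem soMM_map : (soMM E).map (Matrix.toLinAlgEquiv' (R := ℂ) (n := Fin d)).toLinearMap =
    soE (enM E) := by
  unfold soMM soE
  rw [Submodule.map_span]
  congr 1
  ext x
  constructor
  · rintro ⟨_, ⟨i, j, hij, rfl⟩, rfl⟩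
    refine ⟨i, j, hij, ?_⟩
    change Matrix.toLinAlgEquiv' (E i * E j) = _
    rw [map_mul]
    rfl
  · rintro ⟨i, j, hij, rfl⟩
    refine ⟨_, ⟨i, j, hij, rfl⟩, ?_⟩
    change Matrix.toLinAlgEquiv' (E i * E j) = _
    rw [map_mul]
    rfl

theorem mem_soMM {x : Matrix (Fin d) (Fin d) ℂ} :
    x ∈ soMM E ↔ Matrix.toLinAlgEquiv' x ∈ soE (enM E) := by
  rw [← soMM_map]
  constructor
  · intro h
    exact ⟨x, h, rfl⟩
  · rintro ⟨y, hy, h⟩
    rw [← Matrix.toLinAlgEquiv'.injective h]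
    exact hy

end single

variable {I : Type} [Fintype I] [DecidableEq I] {d r : I → ℕ}
  {E : ∀ σ, Fin (r σ) → Matrix (Fin (d σ)) (Fin (d σ)) ℂ}
  {P : ∀ σ, Matrix (Fin (2 * g)) (Fin (d σ)) ℂ} {Q : ∀ σ, Matrix (Fin (d σ)) (Fin (2 * g)) ℂ}

/-- The spaces. -/
abbrev UU (d : I → ℕ) (σ : I) : Type := Fin (d σ) → ℂ

/-- The embedding of the product. -/
def iM (P : ∀ σ, Matrix (Fin (2 * g)) (Fin (d σ)) ℂ) (Q : ∀ σ, Matrix (Fin (d σ)) (Fin (2 * g)) ℂ) :
    PE (UU d) →ₗ[ℂ] Matrix (Fin (2 * g)) (Fin (2 * g)) ℂ where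
  toFun z := ∑ σ, P σ * Matrix.toLinAlgEquiv'.symm (z σ) * Q σ
  map_add' x y := by
    rw [← Finset.sum_add_distrib]
    refine Finset.sum_congr rfl fun σ _ => ?_
    rw [Pi.add_apply, map_add, Matrix.mul_add, Matrix.add_mul]
  map_smul' c x := by
    rw [RingHom.id_apply, Finset.smul_sum]
    refine Finset.sum_congr rfl fun σ _ => ?_
    rw [Pi.smul_apply, map_smul, Matrix.mul_smul, Matrix.smul_mul]

theorem iM_apply (z : PE (UU d)) :
    iM P Q z = ∑ σ, P σ * Matrix.toLinAlgEquiv'.symm (z σ) * Q σ := rfl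

theorem iM_one : iM P Q 1 = ∑ σ, P σ * Q σ := by
  rw [iM_apply]
  refine Finset.sum_congr rfl fun σ _ => ?_
  rw [Pi.one_apply, map_one, Matrix.mul_one]

section orth

variable (hQP : ∀ σ, Q σ * P σ = 1) (hort : ∀ σ τ, σ ≠ τ → Q σ * P τ = 0)
include hQP hort

theorem Q_iM (z : PE (UU d)) (σ : I) :
    Q σ * iM P Q z = Matrix.toLinAlgEquiv'.symm (z σ) * Q σ := by
  rw [iM_apply, Matrix.mul_sum, Finset.sum_eq_single σ]
  · rw [← Matrix.mul_assoc, ← Matrix.mul_assoc, hQP, Matrix.one_mul]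
  · intro τ _ hτ
    rw [← Matrix.mul_assoc, ← Matrix.mul_assoc, hort σ τ (Ne.symm hτ), Matrix.zero_mul,
      Matrix.zero_mul]
  · intro h
    exact absurd (Finset.mem_univ _) h

theorem Q_iM_P (z : PE (UU d)) (σ : I) :
    Q σ * iM P Q z * P σ = Matrix.toLinAlgEquiv'.symm (z σ) := by
  rw [Q_iM hQP hort, Matrix.mul_assoc, hQP, Matrix.mul_one]

theorem iM_mul (x y : PE (UU d)) : iM P Q (x * y) = iM P Q x * iM P Q y := by
  rw [iM_apply, iM_apply (P := P) (Q := Q) x, Matrix.sum_mul]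
  refine Finset.sum_congr rfl fun σ _ => ?_
  rw [Matrix.mul_assoc (P σ * _), Q_iM hQP hort, Pi.mul_apply, map_mul, ← Matrix.mul_assoc,
    ← Matrix.mul_assoc]

theorem iM_inj : Injective (iM P Q) := by
  intro x y h
  funext σ
  have h1 := Q_iM_P hQP hort x σ
  rw [h, Q_iM_P hQP hort y σ] at h1
  exact (Matrix.toLinAlgEquiv'.symm.injective h1).symm

/-- The compression of an operator which commutes with the projectors. -/
theorem iM_cmp {Y : Matrix (Fin (2 * g)) (Fin (2 * g)) ℂ}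
    (hY : ∀ σ, P σ * Q σ * Y = Y * (P σ * Q σ)) :
    iM P Q (fun σ => Matrix.toLinAlgEquiv' (Q σ * Y * P σ)) = (∑ σ, P σ * Q σ) * Y := by
  rw [iM_apply, Matrix.sum_mul]
  refine Finset.sum_congr rfl fun σ _ => ?_
  have h1 : Matrix.toLinAlgEquiv'.symm (Matrix.toLinAlgEquiv' (Q σ * Y * P σ)) = Q σ * Y * P σ :=
    AlgEquiv.symm_apply_apply _ _
  have e1 : P σ * (Q σ * Y * P σ) * Q σ = P σ * Q σ * (Y * (P σ * Q σ)) := by
    simp only [Matrix.mul_assoc]
  have e2 : P σ * Q σ * (P σ * Q σ * Y) = P σ * (Q σ * P σ) * Q σ * Y := by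
    simp only [Matrix.mul_assoc]
  rw [h1, e1, ← hY, e2, hQP, Matrix.mul_one]

end orth

omit [Fintype I] in
theorem single_smul' (σ : I) (c : ℂ) (x : Module.End ℂ (UU d σ)) :
    (Pi.single σ (c • x) : PE (UU d)) = c • Pi.single σ x := by
  funext τ
  by_cases h : τ = σ
  · subst h
    rw [Pi.single_eq_same, Pi.smul_apply, Pi.single_eq_same]
  · rw [Pi.single_eq_of_ne h, Pi.smul_apply, Pi.single_eq_of_ne h, smul_zero]

/-- The elements of the product of the Lie algebras, in the associative algebra. -/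
theorem gen_all {T : Subalgebra ℂ (Matrix (Fin (2 * g)) (Fin (2 * g)) ℂ)}
    (hQP : ∀ σ, Q σ * P σ = 1) (hort : ∀ σ τ, σ ≠ τ → Q σ * P τ = 0)
    (hadj : ∀ Y ∈ T, ∀ σ, P σ * Q σ * Y = Y * (P σ * Q σ))
    (hgen : ∀ σ i j, i ≠ j → ∃ Y ∈ T,
      Q σ * Y * P σ = E σ i * E σ j ∧ ∀ τ, τ ≠ σ → Q τ * Y * P τ = 0) :
    ∀ z ∈ soP fun σ => enM (E σ), ∃ Y ∈ T, iM P Q z = (∑ σ, P σ * Q σ) * Y := by
  have hs : ∀ σ, ∀ x ∈ soE (enM (E σ)), ∃ Y ∈ T,
      iM P Q (Pi.single σ x : PE (UU d)) = (∑ σ, P σ * Q σ) * Y := by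
    intro σ x hx
    refine Submodule.span_induction (p := fun x _ => ∃ Y ∈ T,
      iM P Q (Pi.single σ x : PE (UU d)) = (∑ σ, P σ * Q σ) * Y) ?_ ?_ ?_ ?_ hx
    · rintro _ ⟨i, j, hij, rfl⟩
      obtain ⟨Y, hY, h1, h2⟩ := hgen σ i j hij
      refine ⟨Y, hY, ?_⟩
      have h3 : (Pi.single σ (enM (E σ) i * enM (E σ) j) : PE (UU d)) =
          fun τ => Matrix.toLinAlgEquiv' (Q τ * Y * P τ) := by
        funext τ
        by_cases h : τ = σ
        · subst h
          rw [Pi.single_eq_same, h1, map_mul]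
          rfl
        · rw [Pi.single_eq_of_ne h, h2 τ h, map_zero]
      rw [h3, iM_cmp hQP hort (hadj Y hY)]
    · exact ⟨0, T.zero_mem, by rw [Pi.single_zero, map_zero, Matrix.mul_zero]⟩
    · rintro x y _ _ ⟨X, hX, h1⟩ ⟨Y, hY, h2⟩
      exact ⟨X + Y, T.add_mem hX hY, by rw [Pi.single_add, map_add, h1, h2, Matrix.mul_add]⟩
    · rintro c x _ ⟨X, hX, h1⟩
      exact ⟨c • X, T.smul_mem hX c, by rw [single_smul', map_smul, h1, Matrix.mul_smul]⟩
  intro z hz
  choose Y hY h1 using fun σ => hs σ (z σ) (mem_soP.1 hz σ)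
  refine ⟨∑ σ, Y σ, T.sum_mem fun σ _ => hY σ, ?_⟩
  have h4 : z = ∑ σ, (Pi.single σ (z σ) : PE (UU d)) := (Finset.univ_sum_single z).symm
  rw [h4, map_sum, Matrix.mul_sum]
  exact Finset.sum_congr rfl fun σ _ => h1 σ

/-- **A sum of spin parts with common scalars is a rigid part.** -/
theorem part_common (hsq : ∀ σ i, E σ i * E σ i = 1)
    (hanti : ∀ σ i j, i ≠ j → E σ i * E σ j = -(E σ j * E σ i)) (hd : ∀ σ, 0 < d σ)
    (hr : ∀ σ, r σ = 3 ∨ 6 ≤ r σ) (h8 : ∀ σ τ, r σ = 8 → r τ = 8 → σ = τ)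
    (hQP : ∀ σ, Q σ * P σ = 1) (hort : ∀ σ τ, σ ≠ τ → Q σ * P τ = 0)
    (hst : ∀ X ∈ A.NA, ∀ σ, P σ * Q σ * toC X = toC X * (P σ * Q σ))
    (hle : ∀ X ∈ A.NA, ∃ t : ℂ, ∀ σ, Q σ * toC X * P σ + t • 1 ∈ soMM (E σ))
    (hgen : ∀ σ i j, i ≠ j → ∃ Y ∈ Algebra.adjoin ℂ (Submodule.span ℂ
        {Y | ∃ X ∈ A.NA, Y = toC X} : Set (Matrix (Fin (2 * g)) (Fin (2 * g)) ℂ)),
      Q σ * Y * P σ = E σ i * E σ j ∧ ∀ τ, τ ≠ σ → Q τ * Y * P τ = 0) :
    RigPart A (matE (2 * g) (∑ σ, P σ * Q σ)) ((soP fun σ => enM (E σ)).map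
      ((matE (2 * g)).toLinearMap ∘ₗ iM P Q)) := by
  have : ∀ σ, Nonempty (Fin (d σ)) := fun σ => ⟨⟨0, hd σ⟩⟩
  have hE : ∀ σ, CE (enM (E σ)) := fun σ => enM_CE (hsq σ) (hanti σ)
  have hrig := rigid_soP hE hr h8
  have hone : ((matE (2 * g)).toLinearMap ∘ₗ iM P Q) 1 = matE (2 * g) (∑ σ, P σ * Q σ) := by
    rw [← iM_one]
    rfl
  have hadj : ∀ Y ∈ Algebra.adjoin ℂ (Submodule.span ℂ {Y | ∃ X ∈ A.NA, Y = toC X} :
      Set (Matrix (Fin (2 * g)) (Fin (2 * g)) ℂ)), ∀ σ, P σ * Q σ * Y = Y * (P σ * Q σ) := by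
    intro Y hY σ
    induction hY using Algebra.adjoin_induction with
    | mem x hx =>
      induction hx using Submodule.span_induction with
      | mem x hx =>
        obtain ⟨X, hX, rfl⟩ := hx
        exact hst X hX σ
      | zero => rw [Matrix.mul_zero, Matrix.zero_mul]
      | add x y _ _ hx hy => rw [Matrix.mul_add, Matrix.add_mul, hx, hy]
      | smul c x _ hx => rw [Matrix.mul_smul, Matrix.smul_mul, hx]
    | algebraMap c => exact (Algebra.commutes c (P σ * Q σ)).symm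
    | add x y _ _ hx hy => rw [Matrix.mul_add, Matrix.add_mul, hx, hy]
    | mul x y _ _ hx hy =>
      rw [← Matrix.mul_assoc, hx, Matrix.mul_assoc, hy, Matrix.mul_assoc]
  have hgM := gen_all (P := P) (Q := Q) hQP hort hadj hgen
  rw [← hone]
  refine rigPart_hom hrig (soP_br hE) _ ?_ ?_ ?_ ?_ ?_
  · exact (matE (2 * g)).injective.comp (iM_inj hQP hort)
  · intro x y
    change matE (2 * g) (iM P Q (x * y)) = matE (2 * g) (iM P Q x) * matE (2 * g) (iM P Q y)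
    rw [iM_mul hQP hort, map_mul]
  · intro X hX
    rw [hone, ← matE_toC, ← map_mul, ← map_mul, Matrix.sum_mul, Matrix.mul_sum]
    congr 1
    exact Finset.sum_congr rfl fun σ _ => hst X hX σ
  · intro X hX
    obtain ⟨t, ht⟩ := hle X hX
    refine ⟨t, fun σ => Matrix.toLinAlgEquiv' (Q σ * toC X * P σ + t • 1), ?_, ?_⟩
    · refine mem_soP.2 fun σ => ?_
      exact mem_soMM.1 (ht σ)
    · have h1 : (fun σ => Matrix.toLinAlgEquiv' (Q σ * toC X * P σ + t • 1) : PE (UU d)) =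
          (fun σ => Matrix.toLinAlgEquiv' (Q σ * toC X * P σ)) + t • (1 : PE (UU d)) := by
        funext σ
        rw [Pi.add_apply, Pi.smul_apply, Pi.one_apply, map_add, map_smul, map_one]
      have h2 : ((matE (2 * g)).toLinearMap ∘ₗ iM P Q)
          (fun σ => Matrix.toLinAlgEquiv' (Q σ * toC X * P σ)) =
          matE (2 * g) (∑ σ, P σ * Q σ) * X.baseChange ℂ := by
        change matE (2 * g) (iM P Q _) = _
        rw [iM_cmp hQP hort (hst X hX), map_mul, matE_toC]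
      rw [h1, map_add, map_smul, hone, h2]
  · intro z hz
    obtain ⟨Y, hY, h1⟩ := hgM z hz
    refine ⟨matE (2 * g) Y, matE_adjoin _ hY, ?_⟩
    rw [hone, ← map_mul, ← h1]
    rfl

/-- The product of orthogonal Lie algebras is perfect. -/
theorem soP_perfect (hE : ∀ σ, CE (enM (E σ))) (hd : ∀ σ, 0 < d σ) (hr : ∀ σ, 3 ≤ r σ) :
    (soP fun σ => enM (E σ)) ≤ Submodule.span ℂ {z | ∃ x ∈ soP fun σ => enM (E σ),
      ∃ y ∈ soP fun σ => enM (E σ), z = x * y - y * x} := by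
  have : ∀ σ, Nonempty (Fin (d σ)) := fun σ => ⟨⟨0, hd σ⟩⟩
  intro z hz
  have h4 : z = ∑ σ, (Pi.single σ (z σ) : PE (UU d)) := (Finset.univ_sum_single z).symm
  rw [h4]
  refine Submodule.sum_mem _ fun σ _ => ?_
  have h1 : Submodule.span ℂ {z | ∃ x ∈ soE (enM (E σ)), ∃ y ∈ soE (enM (E σ)),
      z = x * y - y * x} ≤ (Submodule.span ℂ {z | ∃ x ∈ soP fun σ => enM (E σ),
      ∃ y ∈ soP fun σ => enM (E σ), z = x * y - y * x}).comap
        (LinearMap.single ℂ (fun σ => Module.End ℂ (UU d σ)) σ) := by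
    refine Submodule.span_le.2 ?_
    rintro _ ⟨a, ha, b, hb, rfl⟩
    refine Submodule.subset_span ⟨Pi.single σ a, single_mem ha, Pi.single σ b, single_mem hb, ?_⟩
    funext τ
    change (Pi.single σ (a * b - b * a) : PE (UU d)) τ = _
    by_cases h : τ = σ
    · subst h
      rw [Pi.single_eq_same, Pi.sub_apply, Pi.mul_apply, Pi.mul_apply, Pi.single_eq_same,
        Pi.single_eq_same]
    · rw [Pi.single_eq_of_ne h, Pi.sub_apply, Pi.mul_apply, Pi.mul_apply, Pi.single_eq_of_ne h,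
        Pi.single_eq_of_ne h, mul_zero, sub_zero]
  exact h1 (so_perfect (hr σ) (hE σ) (mem_soP.1 hz σ))

end Pool.Agent.Run7.h2.OR
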