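import Pool.Agent.Run7.h2.OR.O6

set_option autoImplicit false
set_option linter.unusedSectionVars false
set_option maxHeartbeats 400000

/-!
# Sums of spin parts with different scalars
-/

open Module Function TensorProduct Matrix

noncomputable section

namespace Pool.Agent.Run7.h2.OR

open Pool.Agent.R918 Pool.Agent.Y102 Pool.Agent.Y102.SP Pool.Agent.W516.DR Pool.Agent.H204R3.GP
  Pool.Agent.N113.BT

variable {g : ℕ} {A : AbVar g}

/-- A projector such that the projections of the derived algebras are all equal. -/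
structure Pin (A : AbVar g) (e : Module.End ℂ (ℂ ⊗[ℚ] A.H1)) : Prop where
  comm : ∀ x ∈ cx A.NA, e * x = x * e
  der : ∀ 𝔮 : Submodule ℚ (Module.End ℚ A.H1), A.Full 𝔮 →
    ∀ X ∈ Pool.Agent.Y102.der A.NA, ∃ y ∈ cx (Pool.Agent.Y102.der 𝔮), e * X.baseChange ℂ = e * y

/-- The complex span of the matrices. -/
def spM {m : ℕ} (S : Submodule ℚ (Module.End ℚ (Fin m → ℚ))) :
    Submodule ℂ (Matrix (Fin m) (Fin m) ℂ) := Submodule.span ℂ {Y | ∃ X ∈ S, Y = toC X}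

theorem spM_map {m : ℕ} (S : Submodule ℚ (Module.End ℚ (Fin m → ℚ))) :
    (spM S).map (matE m).toLinearMap = cx S := map_lie S

theorem toC_br {m : ℕ} (X Y : Module.End ℚ (Fin m → ℚ)) :
    toC (X * Y - Y * X) = toC X * toC Y - toC Y * toC X := by
  apply (matE m).injective
  rw [map_sub, map_mul, map_mul, matE_toC, matE_toC, matE_toC, bc_br]

/-- Brackets in the span. -/
theorem spM_br {m : ℕ} {S : Submodule ℚ (Module.End ℚ (Fin m → ℚ))}
    {T : Submodule ℂ (Matrix (Fin m) (Fin m) ℂ)}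
    (h : ∀ X ∈ S, ∀ Y ∈ S, toC X * toC Y - toC Y * toC X ∈ T) :
    ∀ x ∈ spM S, ∀ y ∈ spM S, x * y - y * x ∈ T := by
  intro x hx y hy
  refine Submodule.span_induction (p := fun x _ => x * y - y * x ∈ T) ?_ ?_ ?_ ?_ hx
  · rintro _ ⟨X, hX, rfl⟩
    refine Submodule.span_induction (p := fun y _ => toC X * y - y * toC X ∈ T) ?_ ?_ ?_ ?_ hy
    · rintro _ ⟨Y, hY, rfl⟩
      exact h X hX Y hY
    · rw [Matrix.mul_zero, Matrix.zero_mul, sub_zero]
      exact T.zero_mem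
    · intro a b _ _ ha hb
      rw [Matrix.mul_add, Matrix.add_mul, add_sub_add_comm]
      exact T.add_mem ha hb
    · intro c a _ ha
      rw [Matrix.mul_smul, Matrix.smul_mul, ← smul_sub]
      exact T.smul_mem c ha
  · rw [Matrix.mul_zero, Matrix.zero_mul, sub_zero]
    exact T.zero_mem
  · intro a b _ _ ha hb
    rw [Matrix.mul_add, Matrix.add_mul, add_sub_add_comm]
    exact T.add_mem ha hb
  · intro c a _ ha
    rw [Matrix.mul_smul, Matrix.smul_mul, ← smul_sub]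
    exact T.smul_mem c ha

variable {I : Type} [Fintype I] [DecidableEq I] {d r : I → ℕ}
  {E : ∀ σ, Fin (r σ) → Matrix (Fin (d σ)) (Fin (d σ)) ℂ}
  {P : ∀ σ, Matrix (Fin (2 * g)) (Fin (d σ)) ℂ} {Q : ∀ σ, Matrix (Fin (d σ)) (Fin (2 * g)) ℂ}

/-- The compressions. -/
def cM (P : ∀ σ, Matrix (Fin (2 * g)) (Fin (d σ)) ℂ) (Q : ∀ σ, Matrix (Fin (d σ)) (Fin (2 * g)) ℂ) :
    Matrix (Fin (2 * g)) (Fin (2 * g)) ℂ →ₗ[ℂ] PE (UU d) where
  toFun Y σ := Matrix.toLinAlgEquiv' (Q σ * Y * P σ)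
  map_add' x y := by
    funext σ
    rw [Pi.add_apply, Matrix.mul_add, Matrix.add_mul, map_add]
  map_smul' c x := by
    funext σ
    rw [RingHom.id_apply, Pi.smul_apply, Matrix.mul_smul, Matrix.smul_mul, map_smul]

theorem cM_apply (Y : Matrix (Fin (2 * g)) (Fin (2 * g)) ℂ) (σ : I) :
    cM P Q Y σ = Matrix.toLinAlgEquiv' (Q σ * Y * P σ) := rfl

theorem cM_mul (hQP : ∀ σ, Q σ * P σ = 1) {Y Y' : Matrix (Fin (2 * g)) (Fin (2 * g)) ℂ}
    (hY : ∀ σ, P σ * Q σ * Y = Y * (P σ * Q σ)) :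
    cM P Q (Y * Y') = cM P Q Y * cM P Q Y' := by
  funext σ
  rw [Pi.mul_apply, cM_apply, cM_apply, cM_apply, ← map_mul]
  congr 1
  have e1 : Q σ * Y * P σ * (Q σ * Y' * P σ) = Q σ * (Y * (P σ * Q σ)) * Y' * P σ := by
    simp only [Matrix.mul_assoc]
  have e2 : Q σ * (P σ * Q σ * Y) * Y' * P σ = Q σ * P σ * Q σ * Y * Y' * P σ := by
    simp only [Matrix.mul_assoc]
  rw [e1, ← hY, e2, hQP, Matrix.one_mul, Matrix.mul_assoc (Q σ) Y Y']

/-- The data of a sum of spin parts. -/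
structure Parts (A : AbVar g) (E : ∀ σ, Fin (r σ) → Matrix (Fin (d σ)) (Fin (d σ)) ℂ)
    (P : ∀ σ, Matrix (Fin (2 * g)) (Fin (d σ)) ℂ)
    (Q : ∀ σ, Matrix (Fin (d σ)) (Fin (2 * g)) ℂ) : Prop where
  sq : ∀ σ i, E σ i * E σ i = 1
  anti : ∀ σ i j, i ≠ j → E σ i * E σ j = -(E σ j * E σ i)
  pos : ∀ σ, 0 < d σ
  rank : ∀ σ, r σ = 3 ∨ 6 ≤ r σ
  eight : ∀ σ τ, r σ = 8 → r τ = 8 → σ = τ
  proj : ∀ σ, Q σ * P σ = 1
  orth : ∀ σ τ, σ ≠ τ → Q σ * P τ = 0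
  st : ∀ X ∈ A.NA, ∀ σ, P σ * Q σ * toC X = toC X * (P σ * Q σ)
  acts : ∀ X ∈ A.NA, ∃ t : I → ℂ, (∀ σ τ, r σ = r τ → t σ = t τ) ∧
    ∀ σ, Q σ * toC X * P σ + t σ • 1 ∈ soMM (E σ)
  gen : ∀ σ i j, i ≠ j → ∃ Y ∈ Algebra.adjoin ℂ (Submodule.span ℂ
      {Y | ∃ X ∈ A.NA, Y = toC X} : Set (Matrix (Fin (2 * g)) (Fin (2 * g)) ℂ)),
    Q σ * Y * P σ = E σ i * E σ j ∧ ∀ τ, τ ≠ σ → r τ = r σ → Q τ * Y * P τ = 0

namespace Parts

variable (h : Parts A E P Q)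
include h

theorem CE' (σ : I) : CE (enM (E σ)) := enM_CE (h.sq σ) (h.anti σ)

theorem r3 (σ : I) : 3 ≤ r σ := by
  rcases h.rank σ with h | h <;> omega

theorem st' {Y : Matrix (Fin (2 * g)) (Fin (2 * g)) ℂ} (hY : Y ∈ spM A.NA) (σ : I) :
    P σ * Q σ * Y = Y * (P σ * Q σ) := by
  refine Submodule.span_induction (p := fun Y _ => P σ * Q σ * Y = Y * (P σ * Q σ)) ?_ ?_ ?_ ?_ hY
  · rintro _ ⟨X, hX, rfl⟩
    exact h.st X hX σ
  · rw [Matrix.mul_zero, Matrix.zero_mul]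
  · intro x y _ _ hx hy
    rw [Matrix.mul_add, Matrix.add_mul, hx, hy]
  · intro c x _ hx
    rw [Matrix.mul_smul, Matrix.smul_mul, hx]

/-- The elements of the Lie algebra act by elements of the orthogonal Lie algebras and scalars. -/
theorem cM_mem {X : Module.End ℚ A.H1} (hX : X ∈ A.NA) (σ : I) :
    ∃ t : ℂ, cM P Q (toC X) σ + t • 1 ∈ soE (enM (E σ)) := by
  obtain ⟨t, -, ht⟩ := h.acts X hX
  refine ⟨t σ, ?_⟩
  have h1 := mem_soMM.1 (ht σ)
  rw [map_add, map_smul, map_one] at h1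
  exact h1

/-- The brackets act by elements of the orthogonal Lie algebras. -/
theorem cM_der {S : Submodule ℚ (Module.End ℚ A.H1)} (hS : S ≤ A.NA) :
    ∀ Y ∈ spM (Pool.Agent.Y102.der S), cM P Q Y ∈ soP fun σ => enM (E σ) := by
  have : ∀ σ, Nonempty (Fin (d σ)) := fun σ => ⟨⟨0, h.pos σ⟩⟩
  have h1 : ∀ X ∈ Pool.Agent.Y102.der S, cM P Q (toC X) ∈ soP fun σ => enM (E σ) := by
    intro X hX
    refine Submodule.span_induction (p := fun X _ => cM P Q (toC X) ∈ soP fun σ => enM (E σ))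
      ?_ ?_ ?_ ?_ hX
    · rintro _ ⟨X, hX, Y, hY, rfl⟩
      have hX' : toC X ∈ spM A.NA := Submodule.subset_span ⟨X, hS hX, rfl⟩
      have hY' : toC Y ∈ spM A.NA := Submodule.subset_span ⟨Y, hS hY, rfl⟩
      rw [toC_br, map_sub, cM_mul h.proj (h.st' hX'), cM_mul h.proj (h.st' hY')]
      refine mem_soP.2 fun σ => ?_
      obtain ⟨s, hs⟩ := h.cM_mem (hS hX) σ
      obtain ⟨t, ht⟩ := h.cM_mem (hS hY) σ
      have h2 := soE_br (h.CE' σ) hs ht
      convert h2 using 1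
      rw [Pi.sub_apply, Pi.mul_apply, Pi.mul_apply]
      simp only [add_mul, mul_add, smul_mul_assoc, mul_smul_comm, one_mul, mul_one]
      module
    · have h2 : toC (0 : Module.End ℚ A.H1) = 0 := by
        ext i j
        change ((0 : ℚ) : ℂ) = 0
        norm_num
      rw [h2, map_zero]
      exact Submodule.zero_mem _
    · intro X Y _ _ hX hY
      have h2 : toC (X + Y) = toC X + toC Y := by
        ext i j
        change (((X (Pi.single j 1) i + Y (Pi.single j 1) i : ℚ)) : ℂ) = _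
        rw [Rat.cast_add]
        rfl
      rw [h2, map_add]
      exact Submodule.add_mem _ hX hY
    · intro c X _ hX
      have h2 : toC (c • X) = (c : ℂ) • toC X := by
        ext i j
        change ((c * X (Pi.single j 1) i : ℚ) : ℂ) = _
        rw [Rat.cast_mul]
        rfl
      rw [h2, map_smul]
      exact Submodule.smul_mem _ _ hX
  intro Y hY
  have h2 : spM (Pool.Agent.Y102.der S) ≤ (soP fun σ => enM (E σ)).comap (cM P Q) := by
    refine Submodule.span_le.2 ?_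
    rintro _ ⟨X, hX, rfl⟩
    exact h1 X hX
  exact h2 hY

/-- The parts of one rank. -/
theorem cls {𝔮 : Submodule ℚ (Module.End ℚ A.H1)} (hq : A.Full 𝔮) (σ : I)
    {x : Module.End ℂ (UU d σ)} (hx : x ∈ soE (enM (E σ))) :
    ∃ Y ∈ spM (Pool.Agent.Y102.der 𝔮), cM P Q Y σ = x ∧ ∀ τ, τ ≠ σ → r τ = r σ →
      cM P Q Y τ = 0 := by
  let J : Type := {τ : I // r τ = r σ}
  let dJ : J → ℕ := fun τ => d τ.1
  let rJ : J → ℕ := fun τ => r τ.1
  let EJ : ∀ τ : J, Fin (rJ τ) → Matrix (Fin (dJ τ)) (Fin (dJ τ)) ℂ := fun τ => E τ.1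
  let PJ : ∀ τ : J, Matrix (Fin (2 * g)) (Fin (dJ τ)) ℂ := fun τ => P τ.1
  let QJ : ∀ τ : J, Matrix (Fin (dJ τ)) (Fin (2 * g)) ℂ := fun τ => Q τ.1
  have hort : ∀ σ τ : J, σ ≠ τ → QJ σ * PJ τ = 0 := fun σ τ hst =>
    h.orth _ _ fun h' => hst (Subtype.ext h')
  have hpart := part_common (A := A) (E := EJ) (P := PJ) (Q := QJ) (fun τ => h.sq τ.1)
    (fun τ => h.anti τ.1) (fun τ => h.pos τ.1) (fun τ => h.rank τ.1)
    (fun τ τ' h1 h2 => Subtype.ext (h.eight _ _ h1 h2)) (fun τ => h.proj τ.1) hort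
    (fun X hX τ => h.st X hX τ.1)
    (fun X hX => by
      obtain ⟨t, ht, ht'⟩ := h.acts X hX
      refine ⟨t σ, fun τ => ?_⟩
      have h1 := ht' τ.1
      rw [ht τ.1 σ τ.2] at h1
      exact h1)
    (fun τ i j hij => by
      obtain ⟨Y, hY, h1, h2⟩ := h.gen τ.1 i j hij
      exact ⟨Y, hY, h1, fun τ' hτ' => h2 τ'.1 (fun h' => hτ' (Subtype.ext h'))
        (τ'.2.trans τ.2.symm)⟩)
  have hEJ : ∀ τ : J, CE (enM (EJ τ)) := fun τ => h.CE' τ.1
  have hperf := soP_perfect (E := EJ) hEJ (fun τ => h.pos τ.1) fun τ => h.r3 τ.1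
  have hperf' : (soP fun σ => enM (EJ σ)).map ((matE (2 * g)).toLinearMap ∘ₗ iM PJ QJ) ≤
      Submodule.span ℂ {z | ∃ x ∈ (soP fun σ => enM (EJ σ)).map
          ((matE (2 * g)).toLinearMap ∘ₗ iM PJ QJ),
        ∃ y ∈ (soP fun σ => enM (EJ σ)).map ((matE (2 * g)).toLinearMap ∘ₗ iM PJ QJ),
          z = x * y - y * x} := by
    rintro _ ⟨z, hz, rfl⟩
    have h1 : Submodule.span ℂ {z | ∃ x ∈ soP fun σ => enM (EJ σ),
        ∃ y ∈ soP fun σ => enM (EJ σ), z = x * y - y * x} ≤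
        (Submodule.span ℂ {z | ∃ x ∈ (soP fun σ => enM (EJ σ)).map
          ((matE (2 * g)).toLinearMap ∘ₗ iM PJ QJ),
        ∃ y ∈ (soP fun σ => enM (EJ σ)).map ((matE (2 * g)).toLinearMap ∘ₗ iM PJ QJ),
          z = x * y - y * x}).comap ((matE (2 * g)).toLinearMap ∘ₗ iM PJ QJ) := by
      refine Submodule.span_le.2 ?_
      rintro _ ⟨a, ha, b, hb, rfl⟩
      refine Submodule.subset_span ⟨_, ⟨a, ha, rfl⟩, _, ⟨b, hb, rfl⟩, ?_⟩
      change matE (2 * g) (iM PJ QJ (a * b - b * a)) = matE (2 * g) (iM PJ QJ a) *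
        matE (2 * g) (iM PJ QJ b) - matE (2 * g) (iM PJ QJ b) * matE (2 * g) (iM PJ QJ a)
      rw [map_sub, iM_mul (fun τ => h.proj τ.1) hort, iM_mul (fun τ => h.proj τ.1) hort, map_sub,
        map_mul, map_mul]
    exact h1 (hperf hz)
  let σ' : J := ⟨σ, rfl⟩
  obtain ⟨y, hy, hye⟩ := RigPart_lift hpart hperf' hq _
    ⟨(Pi.single σ' x : PE (UU dJ)), single_mem (E := fun σ => enM (EJ σ)) (σ := σ') hx, rfl⟩
  rw [← spM_map] at hy
  obtain ⟨Y, hY, rfl⟩ := hy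
  have h2 : iM PJ QJ (Pi.single σ' x) = (∑ τ, PJ τ * QJ τ) * Y := by
    apply (matE (2 * g)).injective
    rw [map_mul]
    exact hye
  have h3 : ∀ τ : J, QJ τ * Y * PJ τ = Matrix.toLinAlgEquiv'.symm
      ((Pi.single σ' x : PE (UU dJ)) τ) := by
    intro τ
    rw [← Q_iM_P (P := PJ) (Q := QJ) (fun τ => h.proj τ.1) hort, h2, Matrix.sum_mul,
      Matrix.mul_sum, Matrix.sum_mul, Finset.sum_eq_single τ]
    · rw [← Matrix.mul_assoc, ← Matrix.mul_assoc, h.proj τ.1, Matrix.one_mul]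
    · intro τ' _ hτ'
      rw [← Matrix.mul_assoc, ← Matrix.mul_assoc, hort τ τ' (Ne.symm hτ'), Matrix.zero_mul,
        Matrix.zero_mul, Matrix.zero_mul]
    · intro h'
      exact absurd (Finset.mem_univ _) h'
  refine ⟨Y, hY, ?_, fun τ hτ hr => ?_⟩
  · have h4 := h3 σ'
    rw [Pi.single_eq_same] at h4
    change Matrix.toLinAlgEquiv' (Q σ * Y * P σ) = x
    change Q σ * Y * P σ = _ at h4
    rw [h4]
    exact AlgEquiv.apply_symm_apply _ x
  · have h4 := h3 ⟨τ, hr⟩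
    rw [Pi.single_eq_of_ne (fun h' => hτ (congrArg Subtype.val h')), map_zero] at h4
    change Matrix.toLinAlgEquiv' (Q τ * Y * P τ) = 0
    change Q τ * Y * P τ = 0 at h4
    rw [h4, map_zero]

/-- **The main theorem on sums of spin parts.** -/
theorem pin : Pin A (matE (2 * g) (∑ σ, P σ * Q σ)) := by
  have hne : ∀ σ, Nonempty (Fin (d σ)) := fun σ => ⟨⟨0, h.pos σ⟩⟩
  refine ⟨cx_comm fun X hX => ?_, fun 𝔮 hq X hX => ?_⟩
  · rw [← matE_toC, ← map_mul, ← map_mul, Matrix.sum_mul, Matrix.mul_sum]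
    exact congrArg _ (Finset.sum_congr rfl fun σ _ => h.st X hX σ)
  have hNA : ∀ Y ∈ spM (Pool.Agent.Y102.der 𝔮), Y ∈ spM A.NA := by
    have h1 : spM (Pool.Agent.Y102.der 𝔮) ≤ spM A.NA := by
      refine Submodule.span_mono ?_
      rintro _ ⟨X, hX, rfl⟩
      exact ⟨X, hq.le (hq.der_le hX), rfl⟩
    exact fun Y hY => h1 hY
  have key : (soP fun σ => enM (E σ)) ≤ (spM (Pool.Agent.Y102.der 𝔮)).map (cM P Q) := by
    have k1 : (spM (Pool.Agent.Y102.der 𝔮)).map (cM P Q) ≤ soP fun σ => enM (E σ) := by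
      rintro _ ⟨Y, hY, rfl⟩
      exact h.cM_der hq.le Y hY
    have k2 : ∀ x ∈ (spM (Pool.Agent.Y102.der 𝔮)).map (cM P Q),
        ∀ y ∈ (spM (Pool.Agent.Y102.der 𝔮)).map (cM P Q),
          x * y - y * x ∈ (spM (Pool.Agent.Y102.der 𝔮)).map (cM P Q) := by
      rintro _ ⟨x, hx, rfl⟩ _ ⟨y, hy, rfl⟩
      refine ⟨x * y - y * x, ?_, ?_⟩
      · refine spM_br (fun X hX Y hY => ?_) x hx y hy
        rw [← toC_br]
        exact Submodule.subset_span ⟨_, Submodule.subset_span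
          ⟨X, hq.der_le hX, Y, hq.der_le hY, rfl⟩, rfl⟩
      · rw [map_sub, cM_mul h.proj (h.st' (hNA x hx)), cM_mul h.proj (h.st' (hNA y hy))]
    have k3 : ∀ σ, ∀ x ∈ soE (enM (E σ)),
        ∃ y ∈ (spM (Pool.Agent.Y102.der 𝔮)).map (cM P Q), y σ = x := by
      intro σ x hx
      obtain ⟨Y, hY, h1, -⟩ := h.cls hq σ hx
      exact ⟨_, ⟨Y, hY, rfl⟩, h1⟩
    refine le_of_two h.CE' h.rank _ k1 k2 k3 fun σ τ hst x hx => ?_
    by_cases hr : r τ = r σ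
    · obtain ⟨Y, hY, h1, h2⟩ := h.cls hq σ hx
      exact ⟨_, ⟨Y, hY, rfl⟩, h1, h2 τ hst.symm hr⟩
    · exact two_of_rank h.CE' h.rank _ k1 k2 k3 (fun h' => hr h'.symm) x hx
  have hX1 : toC X ∈ spM (Pool.Agent.Y102.der A.NA) := Submodule.subset_span ⟨X, hX, rfl⟩
  obtain ⟨Y, hY, h1⟩ := key (h.cM_der le_rfl _ hX1)
  have hX2 : toC X ∈ spM A.NA := by
    have h2 : Pool.Agent.Y102.der A.NA ≤ A.NA := by
      unfold Pool.Agent.Y102.der
      rw [Submodule.span_le]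
      rintro _ ⟨X, hX, Y, hY, rfl⟩
      exact A.NA_bracket hX hY
    exact Submodule.subset_span ⟨X, h2 hX, rfl⟩
  have h2 : (∑ σ, P σ * Q σ) * toC X = (∑ σ, P σ * Q σ) * Y := by
    rw [← iM_cmp h.proj h.orth (h.st' hX2), ← iM_cmp h.proj h.orth (h.st' (hNA Y hY))]
    exact congrArg _ h1.symm
  refine ⟨matE (2 * g) Y, ?_, ?_⟩
  · rw [← spM_map]
    exact ⟨Y, hY, rfl⟩
  · rw [← matE_toC, ← map_mul, h2, map_mul]

end Parts

end Pool.Agent.Run7.h2.OR
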