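import Pool.Agent.Run7.h2.OR.O7
import Pool.Agent.N113.BT.Main

set_option autoImplicit false
set_option linter.unusedSectionVars false
set_option linter.unusedVariables false

/-!
# Motives whose Mumford-Tate domain is the domain of a sum of spin parts

The proofs are those of `Pool.Agent.N113.BT`.
-/

open Module Function TensorProduct Matrix

noncomputable section

namespace Pool.Agent.Run7.h2.OR

open Pool.Agent.Y102 Pool.Agent.W516.DR Pool.Agent.H204R3.GP Pool.Agent.W516.KC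
  Pool.Agent.H204R3.SP Pool.Agent.TH119.MX Pool.Agent.R917 Pool.Agent.N208.AM Pool.Agent.N113.BT

variable {g : ℕ} {A : AbVar g} {s n : ℕ} {r : Fin s → ℕ} {B : Fin n → Ten A r} {w : Fin s → ℤ}
  {P : Matrix (Fin n) (Fin n) ℂ} {Wt : Matrix (Fin n) (Fin n) ℚ}
  {H : Set (Matrix (Fin n) (Fin n) ℂ)} {N : Matrix (Fin n) (Fin n) ℝ}
  {e : Module.End ℂ (ℂ ⊗[ℚ] A.H1)}

/-- **The complex structure is in the Lie algebra of the group**, up to the centre. -/
theorem N_mem2 (h : Mot w B P) (hW : WRel w B Wt) (hH : PtM P H) (hr : Pin A e)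
    (hN : RelR B AbVar.JJ N) {Nc Nd : Matrix (Fin n) (Fin n) ℝ}
    (hNc : Nc ∈ spR B (cenA A : Set (Module.End ℚ A.H1)))
    (hNd : Nd ∈ spR B (der A.NA : Set (Module.End ℚ A.H1))) (hNe : N = Nc + Nd)
    (hα : ∀ p ∈ pC B (der A.NA), e * p.1 = 0 → p.2 * cxm N = cxm N * p.2) :
    Nd ∈ spR B (dq B Wt H : Set (Module.End ℚ A.H1)) := by
  have hq := qM_full h hW hH
  have hdN : dq B Wt H ≤ A.NA := fun Z hZ => (der_mem h hW hZ).1
  have hdd : dq B Wt H ≤ der A.NA := by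
    unfold dq der
    exact Submodule.span_mono fun _ ⟨X, hX, Y, hY, e⟩ => ⟨X, hq.le hX, Y, hq.le hY, e⟩
  have hdb : ∀ X ∈ dq B Wt H, ∀ Y ∈ dq B Wt H, X * Y - Y * X ∈ dq B Wt H := fun X hX Y hY =>
    Submodule.subset_span ⟨X, hq.der_le hX, Y, hq.der_le hY, rfl⟩
  have hle : spR B (der A.NA : Set (Module.End ℚ A.H1)) ≤
      spR B (A.NA : Set (Module.End ℚ A.H1)) := spR_mono der_NA_le
  have hnm : nK B e ≤ spR B (der A.NA : Set (Module.End ℚ A.H1)) := by
    rintro _ ⟨p, hp, -, rfl⟩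
    exact (pC_re hp).1
  refine mem_of_sup (dat h hN hNc hNd hNe) (spR_mono hdd) (spR_br hdb) hnm ?_ ?_ ?_
  · rintro x hx z ⟨p, hp, h1, rfl⟩
    induction hx using Submodule.span_induction with
    | mem x hx =>
      obtain ⟨X, hX, M, hM, rfl⟩ := hx
      refine ⟨_, pC_br h hX hM hp, ?_, ?_⟩
      · change e * (p.1 * X.baseChange ℂ - X.baseChange ℂ * p.1) = 0
        rw [mul_sub, ← mul_assoc, h1, zero_mul, ← mul_assoc, hr.comm _ (bc_mem (der_NA_le hX)),
          mul_assoc, h1, mul_zero, sub_zero]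
      · change _ = reM (cq M * p.2 - p.2 * cq M)
        rw [reM_sub, ← cxm_rq, reM_mul, reM_mul', RLie.br_apply]
    | zero => rw [LinearMap.map_zero₂]; exact Submodule.zero_mem _
    | add a b _ _ ha hb => rw [LinearMap.map_add₂]; exact Submodule.add_mem _ ha hb
    | smul c a _ ha => rw [LinearMap.map_smul₂]; exact Submodule.smul_mem _ _ ha
  · intro z hz
    have h2 : RLie.br N z = 0 := by
      obtain ⟨p, hp, h1, rfl⟩ := hz
      have h3 := congrArg reM (hα p hp h1)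
      rw [reM_mul, reM_mul'] at h3
      rw [RLie.br_apply, h3, sub_self]
    rw [hNe, LinearMap.map_add₂, cenA_br h hNc (hle (hnm hz)), zero_add] at h2
    exact h2
  · rw [spR, Submodule.span_le]
    rintro _ ⟨X, hX, M, hM, rfl⟩
    obtain ⟨y, hy, h1⟩ := hr.der _ hq X hX
    obtain ⟨y', hy'⟩ := exists_pC h hdN hy
    have h2 : ((X.baseChange ℂ : Module.End ℂ (ℂ ⊗[ℚ] A.H1)), cq M) ∈ pC B (der A.NA) :=
      Submodule.subset_span ⟨X, hX, M, hM, rfl⟩
    have h3 := Submodule.sub_mem _ h2 (pC_mono hdd hy')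
    have h4 : rq M = reM y' + (rq M - reM y') := by abel
    change rq M ∈ _
    rw [h4]
    refine Submodule.add_mem_sup (pC_re hy').1 ⟨_, h3, ?_, ?_⟩
    · change e * (X.baseChange ℂ - y) = 0
      rw [mul_sub, h1, sub_self]
    · change _ = reM (cq M - y')
      rw [reM_sub, reM_cq]

/-- **Main theorem**, without a condition on the centre: the derived algebra of the Lie algebra of
the Hodge group is in the Lie algebra of the group. -/
theorem main_der2 (h : Mot w B P) (hW : WRel w B Wt) (hH : PtM P H) (hr : Pin A e)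
    (hN : RelR B AbVar.JJ N)
    (hα : ∀ p ∈ pC B (der A.NA), e * p.1 = 0 → p.2 * cxm N = cxm N * p.2) :
    ∃ L : Submodule ℚ (Matrix (Fin n) (Fin n) ℚ), (∀ x ∈ L, ∀ y ∈ L, x * y - y * x ∈ L) ∧
      N ∈ Submodule.span ℝ {M | ∃ x ∈ L, M = rq x} ∧
      ∀ x ∈ L, ∀ y ∈ L, x * y - y * x ∈ LQ H := by
  obtain ⟨N', hN', t, X, M, h1, h2⟩ := exists_J h
  have h3 : N = N' := hN.uniq h.li hN'
  subst h3
  have h4 : N ∈ spR B (A.NA : Set (Module.End ℚ A.H1)) := by
    rw [h2]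
    exact Submodule.sum_mem _ fun k _ => Submodule.smul_mem _ _ (mem_spR (h1 k).1 (h1 k).2)
  obtain ⟨Nc, hNc, Nd, hNd, hNe⟩ := exists_dec h h4
  have h5 := N_mem2 h hW hH hr hN hNc hNd hNe hα
  refine ⟨cdM B Wt H, fun x hx y hy => ?_, ?_, fun x hx y hy => ?_⟩
  · obtain ⟨d, hd, hd'⟩ := cdM_br h hW hH hx hy
    exact ⟨0, (cenA A).zero_mem, d, hd, 0, _, Rel.zero, hd', (zero_add _).symm⟩
  · rw [hNe]
    refine Submodule.add_mem _ ?_ ?_
    · refine Submodule.span_mono ?_ hNc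
      rintro _ ⟨Z, hZ, M, hM, rfl⟩
      exact ⟨M, ⟨Z, hZ, 0, (dq B Wt H).zero_mem, M, 0, hM, Rel.zero, (add_zero _).symm⟩, rfl⟩
    · refine Submodule.span_mono ?_ h5
      rintro _ ⟨d, hd, M, hM, rfl⟩
      exact ⟨M, ⟨0, (cenA A).zero_mem, d, hd, 0, M, Rel.zero, hM, (zero_add _).symm⟩, rfl⟩
  · obtain ⟨d, hd, hd'⟩ := cdM_br h hW hH hx hy
    obtain ⟨-, M', h6, h7⟩ := der_mem h hW hd
    rw [hd'.uniq h.li h6]
    exact h7

/-- **Main theorem.** -/
theorem main_B2 (h : Mot w B P) (hW : WRel w B Wt) (hH : PtM P H) (hc : NoCentre B)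
    (hr : Pin A e) (hN : RelR B AbVar.JJ N)
    (hα : ∀ p ∈ pC B (der A.NA), e * p.1 = 0 → p.2 * cxm N = cxm N * p.2)
    {z : ℂ} (hz : z ≠ 0) : NormedSpace.exp (KK Wt N z) ∈ H ∧
      HRel w B z (NormedSpace.exp (KK Wt N z)) := by
  obtain ⟨N', hN', t, X, M, h1, h2⟩ := exists_J h
  have h3 : N = N' := hN.uniq h.li hN'
  subst h3
  have h4 : N ∈ spR B (A.NA : Set (Module.End ℚ A.H1)) := by
    rw [h2]
    exact Submodule.sum_mem _ fun k _ => Submodule.smul_mem _ _ (mem_spR (h1 k).1 (h1 k).2)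
  obtain ⟨Nc, hNc, Nd, hNd, hNe⟩ := exists_dec h h4
  have h5 := N_mem2 h hW hH hr hN hNc hNd hNe hα
  have h6 : Nc = 0 := by
    clear hNe
    induction hNc using Submodule.span_induction with
    | mem x hx =>
      obtain ⟨Z, hZ, M, hM, rfl⟩ := hx
      have h7 : Rel B Z 0 := hc Z hZ.1 fun Y hY => by
        rw [hZ.2 Y hY, sub_self]
        exact Rel.zero
      rw [hM.uniq h.li h7, rq_zero]
    | zero => rfl
    | add a b _ _ ha hb => rw [ha, hb, add_zero]
    | smul c a _ ha => rw [ha, smul_zero]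
  rw [h6, zero_add] at hNe
  rw [← hNe] at h5
  refine ⟨exp_mem hH.grp fun d => ?_, hrel_exp hW hN hz⟩
  unfold KK
  exact ((Wt_mem h hW hH hc d).smul _).add ((stab_spR h hW h5 d).smul _)

end Pool.Agent.Run7.h2.OR
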