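import Pool.Agent.Run7.h2.OR.O8
import Pool.Agent.N208.CT.Main
import Pool.Agent.N208.OU.Main

set_option autoImplicit false
set_option linter.unusedSectionVars false
set_option linter.unusedVariables false

/-!
# Motives whose Mumford-Tate domain is the domain of a sum of spin parts: rigid centre

The proof is that of `Pool.Agent.N208.CT`.
-/

open Module Function TensorProduct Matrix

noncomputable section

namespace Pool.Agent.Run7.h2.OR

open Pool.Agent.Y102 Pool.Agent.W516.DR Pool.Agent.H204R3.GP Pool.Agent.W516.KC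
  Pool.Agent.H204R3.SP Pool.Agent.TH119.MX Pool.Agent.R917 Pool.Agent.N208.AM Pool.Agent.N113.BT

variable {g : ℕ} {A : AbVar g} {s n : ℕ} {r : Fin s → ℕ} {B : Fin n → Ten A r} {w : Fin s → ℤ}
  {P : Matrix (Fin n) (Fin n) ℂ} {Wt : Matrix (Fin n) (Fin n) ℚ}
  {H : Set (Matrix (Fin n) (Fin n) ℂ)} {N : Matrix (Fin n) (Fin n) ℝ}
  {e : Module.End ℂ (ℂ ⊗[ℚ] A.H1)}

/-- **Main theorem**, if the centre is rigid. -/
theorem main_CT2 (h : Mot w B P) (hW : WRel w B Wt) (hH : PtM P H) (hrig : Pool.Agent.N208.CT.Rigid A)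
    (hr : Pin A e) (hN : RelR B AbVar.JJ N)
    (hα : ∀ p ∈ pC B (der A.NA), e * p.1 = 0 → p.2 * cxm N = cxm N * p.2)
    {z : ℂ} (hz : z ≠ 0) : NormedSpace.exp (KK Wt N z) ∈ H ∧
      HRel w B z (NormedSpace.exp (KK Wt N z)) := by
  obtain ⟨N', hN', t, X, M, h1, h2⟩ := exists_J h
  have h3 : N = N' := hN.uniq h.li hN'
  subst h3
  have h4 : N ∈ spR B (A.NA : Set (Module.End ℚ A.H1)) := by
    rw [h2]
    exact Submodule.sum_mem _ fun k _ => Submodule.smul_mem _ _ (mem_spR (h1 k).1 (h1 k).2)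
  obtain ⟨Nc, hNc, Nd, hNd, hNe⟩ := exists_dec h h4
  have h5 := N_mem2 h hW hH hr hN hNc hNd hNe hα
  refine ⟨exp_mem hH.grp fun d => ?_, hrel_exp hW hN hz⟩
  have h6 : cxm N = cxm Nc + cxm Nd := by
    rw [hNe]
    ext i j
    simp [cxm]
  unfold KK
  rw [h6]
  exact ((Pool.Agent.N208.CT.Wt_mem' h hW hH d).smul _).add
    (((Pool.Agent.N208.CT.stab_cen h hW hH hrig hNc d).add (stab_spR h hW h5 d)).smul _)

end Pool.Agent.Run7.h2.OR
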